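import Mathlib

open Polynomial

namespace Pool.Agent.ZL

variable (F : Type*) [Field F] [Fintype F]

/-- `z_d = t - t^{q^d}`. -/
noncomputable def zz (d : ℕ) : F[X] := X - X ^ (Fintype.card F ^ d)

/-- `ℓ_d = z_1 ⋯ z_d`. -/
noncomputable def ell (d : ℕ) : F[X] := ∏ i ∈ Finset.range d, zz F (i + 1)

/-- `X_d`. -/
noncomputable def xd : ℕ → F[X]
  | 0 => 0
  | d + 1 => zz F 1 ^ (Fintype.card F - 1) * (1 + xd d) ^ Fintype.card F

section basic

variable {F}

lemma frob_add {R : Type*} [CommRing R] [Algebra F R] (x y : R) :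
    (x + y) ^ Fintype.card F = x ^ Fintype.card F + y ^ Fintype.card F := by
  have := map_add (FiniteField.frobeniusAlgHom F R) x y
  simpa using this

lemma frob_sub {R : Type*} [CommRing R] [Algebra F R] (x y : R) :
    (x - y) ^ Fintype.card F = x ^ Fintype.card F - y ^ Fintype.card F := by
  have := map_sub (FiniteField.frobeniusAlgHom F R) x y
  simpa using this

lemma two_le_q : 2 ≤ Fintype.card F := Fintype.one_lt_card

lemma q_pos : 0 < Fintype.card F := Fintype.card_pos

lemma zz_zero : zz F 0 = 0 := by simp [zz]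

lemma zz_succ (d : ℕ) : zz F (d + 1) = zz F 1 + zz F d ^ Fintype.card F := by
  unfold zz
  rw [frob_sub, ← pow_mul, ← pow_succ]
  ring

lemma zz_succ_eq (d : ℕ) : zz F (d + 1) = zz F 1 * (1 + xd F d) := by
  induction d with
  | zero => simp [xd]
  | succ d ih =>
    rw [zz_succ (d + 1), ih, xd, mul_pow]
    have : zz F 1 ^ Fintype.card F = zz F 1 * zz F 1 ^ (Fintype.card F - 1) := by
      rw [← pow_succ', Nat.sub_add_cancel q_pos]
    rw [this]; ring

lemma z1_mul_xd (d : ℕ) : zz F 1 * xd F d = zz F d ^ Fintype.card F := by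
  cases d with
  | zero => simp [xd, zz_zero, q_pos.ne']
  | succ d =>
    rw [xd, zz_succ_eq d, mul_pow, ← mul_assoc, ← pow_succ', Nat.sub_add_cancel q_pos]

lemma zz_dvd_xd (d : ℕ) : zz F (d + 1) ∣ xd F (d + 1) := by
  rw [xd, zz_succ_eq]
  have h1 : (1 + xd F d) ^ Fintype.card F =
      (1 + xd F d) ^ (Fintype.card F - 1) * (1 + xd F d) := by
    rw [← pow_succ, Nat.sub_add_cancel q_pos]
  rw [h1, ← mul_assoc, ← mul_pow]
  refine Dvd.dvd.mul_right (dvd_pow_self _ ?_) _
  have := two_le_q (F := F)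
  omega

lemma natDegree_zz (d : ℕ) : (zz F (d + 1)).natDegree = Fintype.card F ^ (d + 1) := by
  unfold zz
  rw [natDegree_sub_eq_right_of_natDegree_lt]
  · simp
  · simp only [natDegree_X, natDegree_pow, mul_one]
    exact Nat.one_lt_pow (by omega) two_le_q

lemma zz_ne_zero (d : ℕ) : zz F (d + 1) ≠ 0 := by
  intro h
  have := natDegree_zz (F := F) d
  rw [h, natDegree_zero] at this
  exact absurd this.symm (pow_pos q_pos _).ne'

lemma ell_succ (d : ℕ) : ell F (d + 1) = ell F d * zz F (d + 1) := by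
  unfold ell; rw [Finset.prod_range_succ]

lemma ell_zero : ell F 0 = 1 := by simp [ell]

lemma ell_ne_zero (d : ℕ) : ell F d ≠ 0 := by
  unfold ell
  exact Finset.prod_ne_zero_iff.2 fun i _ => zz_ne_zero i

/-- `L d = q + q^2 + ⋯ + q^d`. -/
def LL (q d : ℕ) : ℕ := ∑ i ∈ Finset.range d, q ^ (i + 1)

lemma LL_zero (q : ℕ) : LL q 0 = 0 := by simp [LL]

lemma LL_succ (q d : ℕ) : LL q (d + 1) = LL q d + q ^ (d + 1) := by
  unfold LL; rw [Finset.sum_range_succ]

lemma LL_succ' (q d : ℕ) : LL q (d + 1) = q * LL q d + q := by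
  induction d with
  | zero => simp [LL]
  | succ d ih =>
    have h := LL_succ q d
    rw [LL_succ, pow_succ _ (d+1)]
    rw [ih] at h ⊢
    have : q * (q * LL q d + q) = q * (LL q d + q ^ (d + 1)) := by rw [h]
    rw [this]; ring

lemma LL_mul (q d : ℕ) (hq : 1 ≤ q) : (q - 1) * LL q d + q = q ^ (d + 1) := by
  induction d with
  | zero => simp [LL]
  | succ d ih =>
    rw [LL_succ, mul_add, pow_succ _ (d + 1)]
    obtain ⟨r, rfl⟩ := Nat.exists_eq_add_of_le hq
    simp only [Nat.add_sub_cancel_left] at *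
    nlinarith

lemma natDegree_ell (d : ℕ) : (ell F d).natDegree = LL (Fintype.card F) d := by
  unfold ell LL
  rw [natDegree_prod _ _ (fun i _ => zz_ne_zero i)]
  simp [natDegree_zz]

lemma natDegree_one_add_xd (d : ℕ) :
    (1 + xd F d).natDegree + Fintype.card F = Fintype.card F ^ (d + 1) := by
  have h := congrArg natDegree (zz_succ_eq (F := F) d)
  rw [natDegree_zz, natDegree_mul (zz_ne_zero 0), natDegree_zz] at h
  · simp only [zero_add, pow_one] at h; omega
  · intro h0
    have := zz_succ_eq (F := F) d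
    rw [h0, mul_zero] at this
    exact zz_ne_zero d this

lemma natDegree_xd (d : ℕ) :
    (xd F d).natDegree = (Fintype.card F - 1) * LL (Fintype.card F) d := by
  have h1 := natDegree_one_add_xd (F := F) d
  have h2 := LL_mul (Fintype.card F) d q_pos
  cases d with
  | zero => simp [xd, LL]
  | succ d =>
    have h3 := natDegree_sub_eq_left_of_natDegree_lt (p := 1 + xd F (d+1)) (q := 1) (by
      rw [natDegree_one]
      have : Fintype.card F < Fintype.card F ^ (d + 1 + 1) := by
        have := Nat.pow_lt_pow_right (two_le_q (F := F)) (show 1 < d + 1 + 1 by omega)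
        simpa using this
      omega)
    rw [add_sub_cancel_left] at h3
    rw [h3]; omega

end basic

end Pool.Agent.ZL
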