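import Pool.Agent.ZL8c.A1

open Polynomial

namespace Pool.Agent.ZL

variable (F : Type*) [Field F] [Fintype F]

/-- The image of `z_d` in `F(t)`. -/
noncomputable def zK (d : ℕ) : RatFunc F := algebraMap F[X] (RatFunc F) (zz F d)

/-- Carlitz's normalised polynomials `e_d / D_d`. -/
noncomputable def ee : ℕ → (RatFunc F)[X]
  | 0 => X
  | d + 1 => C (zK F (d + 1))⁻¹ * (ee d - ee d ^ Fintype.card F)

section basic
variable {F}

lemma zK_ne_zero (d : ℕ) : zK F (d + 1) ≠ 0 := by
  unfold zK
  rw [Ne, map_eq_zero_iff _ (RatFunc.algebraMap_injective F)]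
  exact zz_ne_zero d

lemma zK_succ (d : ℕ) : zK F (d + 1) = zK F 1 + zK F d ^ Fintype.card F := by
  unfold zK; rw [zz_succ, map_add, map_pow]

lemma zK_one : zK F 1 = RatFunc.X - RatFunc.X ^ Fintype.card F := by
  unfold zK zz; simp

lemma ee_zero_eval (y : RatFunc F) : (ee F 0).eval y = y := by simp [ee]

lemma ee_succ_eval (d : ℕ) (y : RatFunc F) :
    (ee F (d + 1)).eval y =
      (zK F (d + 1))⁻¹ * ((ee F d).eval y - (ee F d).eval y ^ Fintype.card F) := by
  simp [ee]

lemma zK_mul_ee_succ (d : ℕ) (y : RatFunc F) :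
    zK F (d + 1) * (ee F (d + 1)).eval y =
      ((ee F d).eval y - (ee F d).eval y ^ Fintype.card F) := by
  rw [ee_succ_eval, mul_inv_cancel_left₀ (zK_ne_zero d)]

lemma ee_eval_add (d : ℕ) (x y : RatFunc F) :
    (ee F d).eval (x + y) = (ee F d).eval x + (ee F d).eval y := by
  induction d with
  | zero => simp [ee]
  | succ d ih => rw [ee_succ_eval, ih, frob_add, ee_succ_eval, ee_succ_eval]; ring

lemma ee_eval_smul (d : ℕ) (x y : RatFunc F) (hx : x ^ Fintype.card F = x) :
    (ee F d).eval (x * y) = x * (ee F d).eval y := by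
  induction d with
  | zero => simp [ee]
  | succ d ih => rw [ee_succ_eval, ih, mul_pow, hx, ee_succ_eval]; ring

lemma ee_carlitz (d : ℕ) (y : RatFunc F) :
    (ee F (d + 1)).eval (RatFunc.X * y) =
      RatFunc.X * (ee F (d + 1)).eval y + (ee F d).eval y ^ Fintype.card F := by
  induction d with
  | zero =>
    have h1 := zK_mul_ee_succ 0 (RatFunc.X * y)
    have h2 := zK_mul_ee_succ 0 y
    rw [ee_zero_eval] at h1 h2
    rw [ee_zero_eval]
    apply mul_left_cancel₀ (zK_ne_zero 0)
    rw [h1, mul_add, mul_left_comm, h2, zero_add, zK_one, mul_pow]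
    ring
  | succ d ih =>
    apply mul_left_cancel₀ (zK_ne_zero (d + 1))
    rw [zK_mul_ee_succ, ih, mul_add, mul_left_comm, zK_mul_ee_succ, frob_add, mul_pow]
    have h3 : ((ee F d).eval y - (ee F d).eval y ^ Fintype.card F) ^ Fintype.card F =
        zK F (d + 1) ^ Fintype.card F * (ee F (d + 1)).eval y ^ Fintype.card F := by
      rw [← zK_mul_ee_succ, mul_pow]
    rw [frob_sub] at h3
    rw [zK_succ (d + 1), zK_one]
    linear_combination h3

lemma ee_eval_one (d : ℕ) : (ee F (d + 1)).eval 1 = 0 := by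
  induction d with
  | zero => rw [ee_succ_eval, ee_zero_eval]; simp
  | succ d ih => rw [ee_succ_eval, ih]; simp [q_pos.ne']

lemma algebraMap_pow_q (θ : F) : (RatFunc.C θ) ^ Fintype.card F = RatFunc.C θ := by
  rw [← map_pow, FiniteField.pow_card]

lemma ee_eval_C (d : ℕ) (θ : F) : (ee F (d + 1)).eval (RatFunc.C θ) = 0 := by
  have := ee_eval_smul (d + 1) (RatFunc.C θ) 1 (algebraMap_pow_q θ)
  rw [mul_one, ee_eval_one, mul_zero] at this
  exact this

lemma ee_eval_poly (n : ℕ) : ∀ d, n ≤ d → ∀ a : F[X], a.natDegree ≤ n →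
    (ee F d).eval (algebraMap F[X] (RatFunc F) a) = RatFunc.C (a.coeff d) := by
  induction n with
  | zero =>
    intro d _ a ha
    rw [Polynomial.eq_C_of_natDegree_le_zero ha, RatFunc.algebraMap_C]
    cases d with
    | zero => rw [ee_zero_eval]; simp
    | succ d => rw [ee_eval_C]; simp
  | succ n ih =>
    intro d hd a ha
    obtain ⟨d, rfl⟩ : ∃ e, d = e + 1 := ⟨d - 1, by omega⟩
    have ha' : a.divX.natDegree ≤ n := by
      rw [natDegree_divX_eq_natDegree_tsub_one]; omega
    have e1 : algebraMap F[X] (RatFunc F) a =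
        RatFunc.X * algebraMap F[X] (RatFunc F) a.divX + RatFunc.C (a.coeff 0) := by
      conv_lhs => rw [← divX_mul_X_add a]
      rw [map_add, map_mul, RatFunc.algebraMap_X, RatFunc.algebraMap_C]; ring
    rw [e1, ee_eval_add, ee_carlitz, ee_eval_C, add_zero, ih (d + 1) (by omega) _ ha',
      ih d (by omega) _ ha', coeff_divX, coeff_divX, algebraMap_pow_q]
    have : a.coeff (d + 1 + 1) = 0 := coeff_eq_zero_of_natDegree_lt (by omega)
    rw [this]; simp

/-- The monic polynomials of degree `d` are in bijection with `Fin d → F`. -/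
noncomputable def monEquiv (F : Type*) [Field F] (d : ℕ) :
    { p : F[X] // p.Monic ∧ p.natDegree = d } ≃ (Fin d → F) :=
  (monicEquivDegreeLT d).trans (degreeLTEquiv F d).toEquiv

instance monFinite (d : ℕ) : Finite { p : F[X] // p.Monic ∧ p.natDegree = d } :=
  Finite.of_equiv _ (monEquiv F d).symm

lemma monSetFinite (d : ℕ) : {p : F[X] | p.Monic ∧ p.natDegree = d}.Finite :=
  Set.finite_coe_iff.mp (monFinite d)

variable (F) in
/-- The finite set of monic polynomials of degree `d`. -/
noncomputable def Mon (d : ℕ) : Finset F[X] :=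
  (monSetFinite (F := F) d).toFinset

lemma mem_Mon {d : ℕ} {p : F[X]} : p ∈ Mon F d ↔ p.Monic ∧ p.natDegree = d := by
  simp [Mon]

lemma card_Mon (d : ℕ) : (Mon F d).card = Fintype.card F ^ d := by
  unfold Mon
  rw [← Set.ncard_eq_toFinset_card _ (monSetFinite d), ← Nat.card_coe_set_eq]
  have := Nat.card_congr (monEquiv F d)
  rw [Nat.card_fun, Nat.card_eq_fintype_card (α := F), Nat.card_eq_fintype_card (α := Fin d),
    Fintype.card_fin] at this
  exact this

/-- `S_d(k) = ∑_{a monic, deg a = d} a^{-k}`. -/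
noncomputable def SS (F : Type*) [Field F] [Fintype F] (d k : ℕ) : RatFunc F :=
  ∑ a ∈ Mon F d, ((algebraMap F[X] (RatFunc F) a)⁻¹) ^ k

lemma ee_eval_mon {d : ℕ} {a : F[X]} (ha : a ∈ Mon F d) :
    (ee F d).eval (algebraMap F[X] (RatFunc F) a) = 1 := by
  rw [mem_Mon] at ha
  rw [ee_eval_poly d d le_rfl a ha.2.le, ← ha.2, Monic.coeff_natDegree ha.1, map_one]

lemma derivative_ee (d : ℕ) :
    derivative (ee F d) = C ((algebraMap F[X] (RatFunc F) (ell F d))⁻¹) := by
  induction d with
  | zero => simp [ee, ell_zero]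
  | succ d ih =>
    have hq : ((Fintype.card F : ℕ) : (RatFunc F)) = 0 := by
      have := FiniteField.cast_card_eq_zero F
      have h2 := congrArg (RatFunc.C (K := F)) this
      rw [map_natCast, map_zero] at h2
      exact h2
    rw [ee, derivative_C_mul, derivative_sub, derivative_pow, ih, hq]
    simp only [map_zero, zero_mul, sub_zero]
    rw [ell_succ, map_mul, mul_inv, ← C_mul, mul_comm]
    rfl

lemma natDegree_ee (d : ℕ) : (ee F d).natDegree = Fintype.card F ^ d := by
  induction d with
  | zero => simp [ee]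
  | succ d ih =>
    rw [ee, natDegree_C_mul (inv_ne_zero (zK_ne_zero d)), natDegree_sub_eq_right_of_natDegree_lt]
    · rw [natDegree_pow, ih, pow_succ']
    · rw [natDegree_pow, ih]
      have := two_le_q (F := F)
      have h2 := pow_pos (q_pos (F := F)) d
      nlinarith

lemma coeff_pow_q (f : (RatFunc F)[X]) (n : ℕ) :
    (f ^ Fintype.card F).coeff n =
      if Fintype.card F ∣ n then (f.coeff (n / Fintype.card F)) ^ Fintype.card F else 0 := by
  obtain ⟨p, hp⟩ := CharP.exists F
  obtain ⟨n', hp', hn⟩ := FiniteField.card F p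
  have := Fact.mk hp'
  have : CharP (RatFunc F) p := charP_of_injective_algebraMap (RatFunc.C (K := F)).injective p
  rw [hn, ← map_iterateFrobenius_expand, coeff_map, coeff_expand (pow_pos hp'.pos _)]
  split_ifs
  · simp [iterateFrobenius_def]
  · simp

/-- coefficient of `Y^q` in `e_d/D_d`. -/
noncomputable def beta (F : Type*) [Field F] [Fintype F] (d : ℕ) : RatFunc F :=
  (ee F d).coeff (Fintype.card F)

lemma coeff_ee_one (d : ℕ) :
    (ee F d).coeff 1 = (algebraMap F[X] (RatFunc F) (ell F d))⁻¹ := by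
  have h := congrArg (fun f => coeff f 0) (derivative_ee (F := F) d)
  simpa [coeff_derivative] using h

lemma coeff_ee_zero (d : ℕ) : (ee F d).coeff 0 = 0 := by
  induction d with
  | zero => simp [ee]
  | succ d ih =>
    rw [ee, coeff_C_mul, coeff_sub, coeff_pow_q, if_pos (dvd_zero _), Nat.zero_div, ih]
    simp [q_pos.ne']

lemma coeff_ee_other (d n : ℕ) (hn : n < Fintype.card F ^ 2) (h1 : n ≠ 1)
    (hq : n ≠ Fintype.card F) : (ee F d).coeff n = 0 := by
  induction d generalizing n with
  | zero => simp [ee, coeff_X, h1.symm]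
  | succ d ih =>
    rw [ee, coeff_C_mul, coeff_sub, coeff_pow_q, ih n hn h1 hq]
    split_ifs with hd
    · obtain ⟨m, rfl⟩ := hd
      rw [Nat.mul_div_cancel_left _ q_pos]
      have hm : m < Fintype.card F := by
        rw [pow_two] at hn
        exact lt_of_mul_lt_mul_left hn (Nat.zero_le _)
      rw [ih m (lt_of_lt_of_le hm (Nat.le_self_pow (by norm_num) _)) (by
        rintro rfl; exact hq (mul_one _)) hm.ne]
      simp [q_pos.ne']
    · simp

lemma beta_zero : beta F 0 = 0 := by
  unfold beta ee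
  rw [coeff_X, if_neg]
  have := two_le_q (F := F)
  omega

lemma beta_succ (d : ℕ) : beta F (d + 1) = (zK F (d + 1))⁻¹ *
    (beta F d - ((algebraMap F[X] (RatFunc F) (ell F d))⁻¹) ^ Fintype.card F) := by
  rw [beta, ee, coeff_C_mul, coeff_sub, coeff_pow_q, if_pos dvd_rfl, Nat.div_self q_pos,
    coeff_ee_one]
  rfl

lemma beta_eq (d : ℕ) : beta F d * (algebraMap F[X] (RatFunc F) (ell F d)) ^ Fintype.card F =
    - algebraMap F[X] (RatFunc F) (xd F d) := by
  induction d with
  | zero => simp [beta_zero, xd]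
  | succ d ih =>
    have hl : algebraMap F[X] (RatFunc F) (ell F d) ≠ 0 := by
      rw [Ne, map_eq_zero_iff _ (RatFunc.algebraMap_injective F)]
      exact ell_ne_zero d
    have hz := zK_ne_zero (F := F) d
    have hz1 := zK_ne_zero (F := F) 0
    have e1 : algebraMap F[X] (RatFunc F) (xd F (d + 1)) * zK F 1 =
        zK F (d + 1) ^ Fintype.card F := by
      have := congrArg (algebraMap F[X] (RatFunc F)) (z1_mul_xd (F := F) (d + 1))
      rw [map_mul, map_pow] at this
      rw [mul_comm]; exact this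
    have e2 : zK F (d + 1) = zK F 1 * (1 + algebraMap F[X] (RatFunc F) (xd F d)) := by
      have := congrArg (algebraMap F[X] (RatFunc F)) (zz_succ_eq (F := F) d)
      rw [map_mul, map_add, map_one] at this
      exact this
    rw [beta_succ, ell_succ, map_mul, mul_pow]
    change (zK F (d + 1))⁻¹ * _ * (_ * zK F (d + 1) ^ Fintype.card F) = _
    rw [← e1]
    have e3 : (beta F d - ((algebraMap F[X] (RatFunc F) (ell F d))⁻¹) ^ Fintype.card F) *
        (algebraMap F[X] (RatFunc F) (ell F d)) ^ Fintype.card F =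
        - (1 + algebraMap F[X] (RatFunc F) (xd F d)) := by
      rw [sub_mul, ih, ← mul_pow, inv_mul_cancel₀ hl, one_pow]; ring
    calc _ = (zK F (d + 1))⁻¹ * ((beta F d -
          ((algebraMap F[X] (RatFunc F) (ell F d))⁻¹) ^ Fintype.card F) *
          (algebraMap F[X] (RatFunc F) (ell F d)) ^ Fintype.card F) *
          (algebraMap F[X] (RatFunc F) (xd F (d + 1)) * zK F 1) := by ring
      _ = (zK F (d + 1))⁻¹ * (- (zK F 1 * (1 + algebraMap F[X] (RatFunc F) (xd F d)))) *
          algebraMap F[X] (RatFunc F) (xd F (d + 1)) := by rw [e3]; ring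
      _ = _ := by
        rw [← e2]; field_simp

/-- Lagrange interpolation: power sums over monic polynomials. -/
lemma sum_eval (d : ℕ) (f : (RatFunc F)[X]) (hf : f.degree < (Fintype.card F ^ d : ℕ)) :
    ∑ a ∈ Mon F d, f.eval (algebraMap F[X] (RatFunc F) a) =
      f.coeff (Fintype.card F ^ d - 1) * (algebraMap F[X] (RatFunc F) (ell F d))⁻¹ /
        (ee F d).leadingCoeff := by
  classical
  have hl : algebraMap F[X] (RatFunc F) (ell F d) ≠ 0 := by
    rw [Ne, map_eq_zero_iff _ (RatFunc.algebraMap_injective F)]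
    exact ell_ne_zero d
  have hee : ee F d ≠ 0 := by
    intro h; have := natDegree_ee (F := F) d
    rw [h, natDegree_zero] at this
    exact absurd this.symm (pow_pos q_pos _).ne'
  have hlc : (ee F d).leadingCoeff ≠ 0 := leadingCoeff_ne_zero.2 hee
  set v : F[X] → RatFunc F := fun a => algebraMap F[X] (RatFunc F) a with hv
  have hinj : Set.InjOn v (Mon F d) := fun a _ b _ h => RatFunc.algebraMap_injective F h
  have hdee : (ee F d).degree = (Fintype.card F ^ d : ℕ) := by
    rw [degree_eq_natDegree hee, natDegree_ee]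
  have hlt : (1 : (RatFunc F)[X]).degree < (ee F d).degree := by
    rw [hdee, degree_one]
    exact_mod_cast pow_pos (q_pos (F := F)) d
  have key : ee F d - 1 = C (ee F d).leadingCoeff * Lagrange.nodal (Mon F d) v := by
    apply Polynomial.eq_of_degree_le_of_eval_index_eq (Mon F d) hinj
    · rw [degree_sub_eq_left_of_degree_lt hlt, hdee, card_Mon]
    · rw [degree_sub_eq_left_of_degree_lt hlt, hdee, degree_C_mul hlc, Lagrange.degree_nodal,
        card_Mon]
    · rw [leadingCoeff_sub_of_degree_lt hlt, leadingCoeff_mul, leadingCoeff_C,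
        (Lagrange.nodal_monic).leadingCoeff, mul_one]
    · intro a ha
      rw [eval_sub, hv, ee_eval_mon ha, eval_one, sub_self, eval_mul,
        Lagrange.eval_nodal_at_node ha, mul_zero]
  have hder : ∀ a ∈ Mon F d, ∏ b ∈ (Mon F d).erase a, (v a - v b) =
      (algebraMap F[X] (RatFunc F) (ell F d))⁻¹ / (ee F d).leadingCoeff := by
    intro a ha
    rw [← Lagrange.eval_nodal, ← Lagrange.eval_nodal_derivative_eval_node_eq ha, eq_div_iff hlc]
    have h2 := congrArg derivative key
    rw [derivative_sub, derivative_one, sub_zero, derivative_ee, derivative_C_mul] at h2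
    have h3 := congrArg (fun f => f.eval (v a)) h2
    simp only [eval_C, eval_mul] at h3
    rw [h3]; ring
  rw [← card_Mon d] at hf ⊢
  have h4 : ∑ i ∈ Mon F d, eval (v i) f / ∏ j ∈ (Mon F d).erase i, (v i - v j) =
      ∑ i ∈ Mon F d, eval (v i) f /
        ((algebraMap F[X] (RatFunc F) (ell F d))⁻¹ / (ee F d).leadingCoeff) :=
    Finset.sum_congr rfl (fun a ha => by rw [hder a ha])
  rw [Lagrange.coeff_eq_sum hinj hf, h4, ← Finset.sum_div]
  field_simp
  rfl

lemma degree_lt_of_nat {f : (RatFunc F)[X]} {n : ℕ} (h : f.natDegree < n) :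
    f.degree < (n : ℕ) := lt_of_le_of_lt degree_le_natDegree (by exact_mod_cast h)

lemma ell_K_ne_zero (d : ℕ) : algebraMap F[X] (RatFunc F) (ell F d) ≠ 0 := by
  rw [Ne, map_eq_zero_iff _ (RatFunc.algebraMap_injective F)]
  exact ell_ne_zero d

lemma mon_ne_zero {d : ℕ} {a : F[X]} (ha : a ∈ Mon F d) :
    algebraMap F[X] (RatFunc F) a ≠ 0 := by
  rw [Ne, map_eq_zero_iff _ (RatFunc.algebraMap_injective F)]
  exact (mem_Mon.1 ha).1.ne_zero

lemma SS_one (d : ℕ) : SS F d 1 = (algebraMap F[X] (RatFunc F) (ell F d))⁻¹ := by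
  have hee : ee F d ≠ 0 := by
    intro h; have := natDegree_ee (F := F) d
    rw [h, natDegree_zero] at this
    exact absurd this.symm (pow_pos q_pos _).ne'
  have hlc : (ee F d).leadingCoeff ≠ 0 := leadingCoeff_ne_zero.2 hee
  have hX : (ee F d).divX * X = ee F d := by
    have := divX_mul_X_add (ee F d)
    rwa [coeff_ee_zero, map_zero, add_zero] at this
  have h1 : SS F d 1 = ∑ a ∈ Mon F d, ((ee F d).divX).eval (algebraMap F[X] (RatFunc F) a) := by
    unfold SS
    apply Finset.sum_congr rfl
    intro a ha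
    have h2 := ee_eval_mon ha
    rw [← hX, eval_mul, eval_X] at h2
    rw [pow_one, inv_eq_of_mul_eq_one_left h2]
  have hqd := pow_pos (q_pos (F := F)) d
  rw [h1, sum_eval, coeff_divX, Nat.sub_add_cancel hqd, leadingCoeff, natDegree_ee]
  · rw [leadingCoeff, natDegree_ee] at hlc
    field_simp
  · apply degree_lt_of_nat
    rw [natDegree_divX_eq_natDegree_tsub_one, natDegree_ee]
    omega

lemma sum_pow_eq_zero (d m : ℕ) (hm : m + 1 < Fintype.card F ^ d) :
    ∑ a ∈ Mon F d, (algebraMap F[X] (RatFunc F) a) ^ m = 0 := by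
  have h := sum_eval d (X ^ m : (RatFunc F)[X]) (degree_lt_of_nat (by
    rw [natDegree_X_pow]; omega))
  rw [coeff_X_pow, if_neg (by omega)] at h
  simpa using h

/-- The polynomial `e_d - α Y - β Y^q` divided by `Y^{k+1}` (`k < q^2`). -/
lemma exists_quot (d k : ℕ) (hk : k < Fintype.card F ^ 2) :
    ∃ g : (RatFunc F)[X], g * X ^ (k + 1) = ee F d -
      C ((algebraMap F[X] (RatFunc F) (ell F d))⁻¹) * X - C (beta F d) * X ^ Fintype.card F := by
  have hd : X ^ (k + 1) ∣ ee F d -
      C ((algebraMap F[X] (RatFunc F) (ell F d))⁻¹) * X - C (beta F d) * X ^ Fintype.card F := by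
    rw [X_pow_dvd_iff]
    intro n hn
    rw [coeff_sub, coeff_sub, coeff_C_mul, coeff_C_mul, coeff_X, coeff_X_pow]
    have h2 := two_le_q (F := F)
    by_cases h1 : n = 1
    · subst h1
      rw [coeff_ee_one, if_pos rfl, if_neg (by omega)]; ring
    · by_cases hq : n = Fintype.card F
      · rw [if_neg (fun h => h1 h.symm), if_pos hq, hq]
        unfold beta; ring
      · rw [if_neg (fun h => h1 h.symm), if_neg hq, coeff_ee_other d n (by omega) h1 hq]; ring
  obtain ⟨g, hg⟩ := hd
  exact ⟨g, by rw [hg]; ring⟩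

lemma natDegree_rest (d : ℕ) : (ee F d -
      C ((algebraMap F[X] (RatFunc F) (ell F d))⁻¹) * X -
      C (beta F d) * X ^ Fintype.card F).natDegree ≤ Fintype.card F ^ d := by
  have h1 : 1 ≤ Fintype.card F ^ d := pow_pos q_pos d
  refine (natDegree_sub_le _ _).trans (max_le ((natDegree_sub_le _ _).trans (max_le ?_ ?_)) ?_)
  · rw [natDegree_ee]
  · exact (natDegree_C_mul_le _ _).trans (by rw [natDegree_X]; exact h1)
  · cases d with
    | zero => rw [beta_zero]; simp
    | succ d =>
      refine (natDegree_C_mul_le _ _).trans ?_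
      rw [natDegree_X_pow]
      exact Nat.le_self_pow (by omega) _

lemma SS_rec (d k : ℕ) (hk1 : 1 ≤ k) (hk : k < Fintype.card F ^ 2) :
    SS F d (k + 1) = (algebraMap F[X] (RatFunc F) (ell F d))⁻¹ * SS F d k +
      beta F d * (if Fintype.card F < k + 1 then SS F d (k + 1 - Fintype.card F) else 0) := by
  obtain ⟨g, hg⟩ := exists_quot (F := F) d k hk
  have hqd : 1 ≤ Fintype.card F ^ d := pow_pos q_pos d
  -- the sum of `g` vanishes
  have hdeg : g.natDegree + (k + 1) ≤ Fintype.card F ^ d ∨ g = 0 := by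
    by_cases h0 : g = 0
    · right; exact h0
    · left
      have h1 := natDegree_rest (F := F) d
      rw [← hg, natDegree_mul h0 (pow_ne_zero _ X_ne_zero), natDegree_X_pow] at h1
      exact h1
  have hs : ∑ a ∈ Mon F d, g.eval (algebraMap F[X] (RatFunc F) a) = 0 := by
    rcases hdeg with h | h
    · rw [sum_eval d g (degree_lt_of_nat (by omega)),
        coeff_eq_zero_of_natDegree_lt (by omega)]
      ring
    · simp [h]
  have hterm : ∀ a ∈ Mon F d, g.eval (algebraMap F[X] (RatFunc F) a) =
      ((algebraMap F[X] (RatFunc F) a)⁻¹) ^ (k + 1) -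
      (algebraMap F[X] (RatFunc F) (ell F d))⁻¹ * ((algebraMap F[X] (RatFunc F) a)⁻¹) ^ k -
      beta F d * ((algebraMap F[X] (RatFunc F) a) ^ Fintype.card F *
        ((algebraMap F[X] (RatFunc F) a)⁻¹) ^ (k + 1)) := by
    intro a ha
    have ha0 := mon_ne_zero ha
    have h1 := congrArg (fun f => f.eval (algebraMap F[X] (RatFunc F) a)) hg
    simp only [eval_mul, eval_sub, eval_pow, eval_X, eval_C, ee_eval_mon ha] at h1
    have hpk : (algebraMap F[X] (RatFunc F) a) ^ (k + 1) ≠ 0 := pow_ne_zero _ ha0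
    have h2 : g.eval (algebraMap F[X] (RatFunc F) a) =
        (1 - (algebraMap F[X] (RatFunc F) (ell F d))⁻¹ * (algebraMap F[X] (RatFunc F) a) -
          beta F d * (algebraMap F[X] (RatFunc F) a) ^ Fintype.card F) *
          ((algebraMap F[X] (RatFunc F) a) ^ (k + 1))⁻¹ := by
      rw [← h1, mul_assoc, mul_inv_cancel₀ hpk, mul_one]
    rw [h2, inv_pow, inv_pow, pow_succ]
    field_simp
  rw [Finset.sum_congr rfl hterm, Finset.sum_sub_distrib, Finset.sum_sub_distrib,
    ← Finset.mul_sum, ← Finset.mul_sum] at hs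
  have hlast : beta F d * ∑ a ∈ Mon F d, ((algebraMap F[X] (RatFunc F) a) ^ Fintype.card F *
        ((algebraMap F[X] (RatFunc F) a)⁻¹) ^ (k + 1)) =
      beta F d * (if Fintype.card F < k + 1 then SS F d (k + 1 - Fintype.card F) else 0) := by
    split_ifs with h
    · congr 1
      unfold SS
      apply Finset.sum_congr rfl
      intro a ha
      have ha0 := mon_ne_zero ha
      rw [inv_pow, inv_pow]
      have : (algebraMap F[X] (RatFunc F) a) ^ (k + 1) =
        (algebraMap F[X] (RatFunc F) a) ^ Fintype.card F *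
          (algebraMap F[X] (RatFunc F) a) ^ (k + 1 - Fintype.card F) := by
        rw [← pow_add]; congr 1; omega
      rw [this]
      field_simp
    · cases d with
      | zero => rw [beta_zero]; ring
      | succ d =>
        congr 1
        have h2 : ∑ a ∈ Mon F (d + 1), ((algebraMap F[X] (RatFunc F) a) ^ Fintype.card F *
            ((algebraMap F[X] (RatFunc F) a)⁻¹) ^ (k + 1)) =
            ∑ a ∈ Mon F (d + 1), (algebraMap F[X] (RatFunc F) a) ^ (Fintype.card F - (k + 1)) := by
          apply Finset.sum_congr rfl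
          intro a ha
          have ha0 := mon_ne_zero ha
          have : (algebraMap F[X] (RatFunc F) a) ^ Fintype.card F =
            (algebraMap F[X] (RatFunc F) a) ^ (k + 1) *
              (algebraMap F[X] (RatFunc F) a) ^ (Fintype.card F - (k + 1)) := by
            rw [← pow_add]; congr 1; omega
          rw [this, inv_pow]
          field_simp
        rw [h2, sum_pow_eq_zero]
        have : Fintype.card F ≤ Fintype.card F ^ (d + 1) := Nat.le_self_pow (by omega) _
        omega
  rw [hlast] at hs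
  have e1 : SS F d (k + 1) = ∑ a ∈ Mon F d, ((algebraMap F[X] (RatFunc F) a)⁻¹) ^ (k + 1) := rfl
  have e2 : SS F d k = ∑ a ∈ Mon F d, ((algebraMap F[X] (RatFunc F) a)⁻¹) ^ k := rfl
  rw [e1, e2]
  linear_combination hs

end basic
end Pool.Agent.ZL
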