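import Pool.Agent.ZL8c.A2

open Polynomial

namespace Pool.Agent.ZL

variable (F : Type*) [Field F] [Fintype F]

/-- The polynomials `g_k`: with `k - 1 = a₀ + a₁ q`, the truncation of `(1+X)^{q-1-a₀}` in
degrees `≤ a₁`. -/
noncomputable def GG (k : ℕ) : F[X] :=
  ∑ b ∈ Finset.range ((k - 1) / Fintype.card F + 1),
    C ((Nat.choose (Fintype.card F - 1 - (k - 1) % Fintype.card F) b : ℕ) : F) * X ^ b

variable {F}

lemma coeff_GG (k b : ℕ) : (GG F k).coeff b = if b ≤ (k - 1) / Fintype.card F then
    ((Nat.choose (Fintype.card F - 1 - (k - 1) % Fintype.card F) b : ℕ) : F) else 0 := by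
  unfold GG
  simp only [finsetSum_coeff, coeff_C_mul, coeff_X_pow, mul_ite, mul_one, mul_zero]
  rw [Finset.sum_ite_eq]
  simp only [Finset.mem_range, Nat.lt_succ_iff]

lemma cast_choose_q (b : ℕ) (hb : b ≠ 0) (hb' : b ≠ Fintype.card F) :
    ((Nat.choose (Fintype.card F) b : ℕ) : F) = 0 := by
  obtain ⟨p, hp⟩ := CharP.exists F
  obtain ⟨n', hp', hn⟩ := FiniteField.card F p
  rw [hn] at hb' ⊢
  rw [CharP.cast_eq_zero_iff F p]
  exact hp'.dvd_choose_pow hb hb'

lemma GG_rec (k : ℕ) (hk1 : 1 ≤ k) (hk : k < Fintype.card F ^ 2) :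
    GG F (k + 1) = GG F k - X * (if Fintype.card F < k + 1 then
      GG F (k + 1 - Fintype.card F) else 0) := by
  have hq := two_le_q (F := F)
  obtain ⟨a0, a1, ha0, hka⟩ : ∃ a0 a1, a0 < Fintype.card F ∧ k = 1 + a0 + a1 * Fintype.card F :=
    ⟨(k - 1) % Fintype.card F, (k - 1) / Fintype.card F, Nat.mod_lt _ (by omega), by
      have := Nat.mod_add_div (k - 1) (Fintype.card F)
      rw [mul_comm] at this; omega⟩
  have ha1 : a1 < Fintype.card F := by
    by_contra h
    push Not at h
    have := Nat.mul_le_mul_right (Fintype.card F) h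
    rw [pow_two] at hk; omega
  have hkd : (k - 1) / Fintype.card F = a1 := by
    rw [hka, show 1 + a0 + a1 * Fintype.card F - 1 = a0 + a1 * Fintype.card F by omega,
      Nat.add_mul_div_right _ _ (by omega), Nat.div_eq_of_lt ha0, zero_add]
  have hkm : (k - 1) % Fintype.card F = a0 := by
    rw [hka, show 1 + a0 + a1 * Fintype.card F - 1 = a0 + a1 * Fintype.card F by omega,
      Nat.add_mul_mod_self_right, Nat.mod_eq_of_lt ha0]
  by_cases hc : a0 + 1 < Fintype.card F
  · -- no carry
    have hkd' : (k + 1 - 1) / Fintype.card F = a1 := by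
      rw [hka, show 1 + a0 + a1 * Fintype.card F + 1 - 1 = (a0 + 1) + a1 * Fintype.card F by omega,
        Nat.add_mul_div_right _ _ (by omega), Nat.div_eq_of_lt hc, zero_add]
    have hkm' : (k + 1 - 1) % Fintype.card F = a0 + 1 := by
      rw [hka, show 1 + a0 + a1 * Fintype.card F + 1 - 1 = (a0 + 1) + a1 * Fintype.card F by omega,
        Nat.add_mul_mod_self_right, Nat.mod_eq_of_lt hc]
    cases a1 with
    | zero =>
      rw [if_neg (by omega), mul_zero, sub_zero]
      ext b
      rw [coeff_GG, coeff_GG, hkd, hkd', hkm, hkm']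
      by_cases hb : b ≤ 0
      · have : b = 0 := by omega
        subst this; simp
      · rw [if_neg hb, if_neg hb]
    | succ a1 =>
      have hsub : k + 1 - Fintype.card F - 1 = (a0 + 1) + a1 * Fintype.card F := by
        rw [hka, add_mul]; omega
      have hkd2 : (k + 1 - Fintype.card F - 1) / Fintype.card F = a1 := by
        rw [hsub, Nat.add_mul_div_right _ _ (by omega), Nat.div_eq_of_lt hc, zero_add]
      have hkm2 : (k + 1 - Fintype.card F - 1) % Fintype.card F = a0 + 1 := by
        rw [hsub, Nat.add_mul_mod_self_right, Nat.mod_eq_of_lt hc]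
      rw [if_pos (by rw [hka, add_mul]; omega)]
      ext b
      rw [coeff_sub]
      cases b with
      | zero =>
        rw [coeff_X_mul_zero, coeff_GG, coeff_GG]; simp
      | succ b =>
        rw [coeff_X_mul, coeff_GG, coeff_GG, coeff_GG, hkd, hkd', hkm, hkm', hkd2, hkm2]
        by_cases hb : b ≤ a1
        · rw [if_pos (by omega), if_pos (by omega), if_pos hb]
          have e1 : Fintype.card F - 1 - a0 = (Fintype.card F - 1 - (a0 + 1)) + 1 := by omega
          rw [e1, Nat.choose_succ_succ]
          push_cast; ring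
        · rw [if_neg (by omega), if_neg (by omega), if_neg hb]; ring
  · -- carry
    have ha0' : a0 + 1 = Fintype.card F := by omega
    have hk' : k = (a1 + 1) * Fintype.card F := by rw [hka, add_mul]; omega
    have ha1' : a1 + 1 < Fintype.card F := by
      by_contra h
      push Not at h
      have := Nat.mul_le_mul_right (Fintype.card F) h
      rw [pow_two] at hk; omega
    have hkd' : (k + 1 - 1) / Fintype.card F = a1 + 1 := by
      rw [hk', Nat.add_sub_cancel, Nat.mul_div_cancel _ (by omega)]
    have hkm' : (k + 1 - 1) % Fintype.card F = 0 := by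
      rw [hk', Nat.add_sub_cancel, Nat.mul_mod_left]
    have hsub : k + 1 - Fintype.card F - 1 = a1 * Fintype.card F := by
      rw [hk', add_mul]; omega
    have hkd2 : (k + 1 - Fintype.card F - 1) / Fintype.card F = a1 := by
      rw [hsub, Nat.mul_div_cancel _ (by omega)]
    have hkm2 : (k + 1 - Fintype.card F - 1) % Fintype.card F = 0 := by
      rw [hsub, Nat.mul_mod_left]
    rw [if_pos (by rw [hk', add_mul]; omega)]
    ext b
    rw [coeff_sub]
    cases b with
    | zero =>
      rw [coeff_X_mul_zero, coeff_GG, coeff_GG]; simp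
    | succ b =>
      rw [coeff_X_mul, coeff_GG, coeff_GG, coeff_GG, hkd, hkd', hkm, hkm', hkd2, hkm2]
      have e1 : Fintype.card F - 1 - a0 = 0 := by omega
      rw [e1, Nat.choose_zero_succ, Nat.cast_zero, ite_self, zero_sub, Nat.sub_zero]
      by_cases hb : b ≤ a1
      · rw [if_pos (by omega), if_pos hb]
        have h3 := cast_choose_q (F := F) (b + 1) (by omega) (by omega)
        have h4 : Nat.choose (Fintype.card F) (b + 1) = Nat.choose (Fintype.card F - 1) b +
            Nat.choose (Fintype.card F - 1) (b + 1) := by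
          obtain ⟨r, hr⟩ : ∃ r, Fintype.card F = r + 1 := ⟨Fintype.card F - 1, by omega⟩
          rw [hr]; exact Nat.choose_succ_succ _ _
        rw [h4] at h3
        push_cast at h3
        linear_combination h3
      · rw [if_neg (by omega), if_neg hb]; ring

lemma GG_one : GG F 1 = 1 := by
  ext b
  rw [coeff_GG, coeff_one]
  simp only [Nat.sub_self, Nat.zero_div, Nat.zero_mod, Nat.sub_zero]
  by_cases hb : b = 0
  · subst hb; simp
  · rw [if_neg (by omega), if_neg (by omega)]

lemma coeff_GG_zero (k : ℕ) : (GG F k).coeff 0 = 1 := by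
  rw [coeff_GG]; simp

lemma natDegree_GG_le (k : ℕ) : (GG F k).natDegree ≤ (k - 1) / Fintype.card F := by
  rw [natDegree_le_iff_coeff_eq_zero]
  intro N hN
  rw [coeff_GG, if_neg (by omega)]

lemma GG_ne_zero (k : ℕ) : GG F k ≠ 0 := by
  intro h
  have := coeff_GG_zero (F := F) k
  rw [h, coeff_zero] at this
  exact zero_ne_one this

lemma SS_eq (d k : ℕ) (hk1 : 1 ≤ k) (hk : k ≤ Fintype.card F ^ 2) :
    (algebraMap F[X] (RatFunc F) (ell F d)) ^ k * SS F d k =
      algebraMap F[X] (RatFunc F) ((GG F k).comp (xd F d)) := by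
  induction k using Nat.strong_induction_on with
  | _ k ih =>
    have hl := ell_K_ne_zero (F := F) d
    rcases Nat.lt_or_ge 1 k with h | h
    · obtain ⟨k, rfl⟩ : ∃ m, k = m + 1 := ⟨k - 1, by omega⟩
      rw [SS_rec d k (by omega) (by omega), GG_rec k (by omega) (by omega)]
      have h1 := ih k (by omega) (by omega) (by omega)
      rw [sub_comp, map_sub, ← h1, mul_comp, X_comp, map_mul]
      split_ifs with hc
      · have h2 := ih (k + 1 - Fintype.card F) (by have := two_le_q (F := F); omega)
          (by omega) (by omega)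
        rw [← h2]
        have h3 : (algebraMap F[X] (RatFunc F) (ell F d)) ^ (k + 1) =
            (algebraMap F[X] (RatFunc F) (ell F d)) ^ Fintype.card F *
            (algebraMap F[X] (RatFunc F) (ell F d)) ^ (k + 1 - Fintype.card F) := by
          rw [← pow_add]; congr 1; omega
        have h4 := beta_eq (F := F) d
        rw [mul_add]
        have e1 : (algebraMap F[X] (RatFunc F) (ell F d)) ^ (k + 1) *
            ((algebraMap F[X] (RatFunc F) (ell F d))⁻¹ * SS F d k) =
            (algebraMap F[X] (RatFunc F) (ell F d)) ^ k * SS F d k := by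
          rw [pow_succ]; field_simp
        rw [e1, h3]
        linear_combination (algebraMap F[X] (RatFunc F) (ell F d)) ^ (k + 1 - Fintype.card F) *
          SS F d (k + 1 - Fintype.card F) * h4
      · simp only [zero_comp, map_zero, mul_zero, add_zero, sub_zero]
        rw [pow_succ]; field_simp
    · have : k = 1 := by omega
      subst this
      rw [GG_one, SS_one, pow_one, mul_inv_cancel₀ hl]; simp

end Pool.Agent.ZL
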