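import Pool.Agent.ZL8c.A3

open Polynomial WithZero

namespace Pool.Agent.ZL

variable {F : Type*} [Field F] [Fintype F] [DecidableEq (RatFunc F)]

/-- the valuation at infinity -/
noncomputable abbrev vv (x : RatFunc F) : ℤᵐ⁰ := RatFunc.inftyValuation F x

omit [Fintype F] in
lemma vv_poly {a : F[X]} (ha : a ≠ 0) :
    vv (algebraMap F[X] (RatFunc F) a) = exp (a.natDegree : ℤ) :=
  RatFunc.inftyValuation.polynomial F ha

omit [Fintype F] in
lemma vv_ne_zero {x : RatFunc F} (hx : x ≠ 0) : vv x = exp x.intDegree :=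
  RatFunc.inftyValuation_of_nonzero F hx

omit [Fintype F] in
lemma poly_eq_zero_of_vv_lt {a : F[X]} (h : vv (algebraMap F[X] (RatFunc F) a) < exp 0) :
    a = 0 := by
  by_contra h0
  rw [vv_poly h0, exp_lt_exp] at h
  omega

/-- `T d → 0` at infinity. -/
def Tends (T : ℕ → RatFunc F) : Prop := ∀ m : ℤ, ∃ D, ∀ d, D ≤ d → vv (T d) < exp m

lemma tail_bound (T : ℕ → RatFunc F) (B : ℕ → ℤᵐ⁰) (n0 : ℕ)
    (hanti : ∀ n, n0 ≤ n → B (n + 1) ≤ B n)
    (hV : ∀ n, n0 ≤ n → vv (T (n + 1) - T n) ≤ B n) (hlim : Tends T) :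
    ∀ n, n0 ≤ n → vv (T n) ≤ B n := by
  intro n hn
  by_contra hcon
  push Not at hcon
  have hB : ∀ k, B (n + k) ≤ B n := by
    intro k
    induction k with
    | zero => simp
    | succ k ih => exact (hanti (n + k) (by omega)).trans ih
  have key : ∀ k, vv (T (n + k)) = vv (T n) := by
    intro k
    induction k with
    | zero => simp
    | succ k ih =>
      have h1 : vv (T (n + k + 1) - T (n + k)) < vv (T (n + k)) := by
        rw [ih]; exact ((hV (n + k) (by omega)).trans (hB k)).trans_lt hcon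
      have h2 : T (n + k + 1) = T (n + k) + (T (n + k + 1) - T (n + k)) := by ring
      rw [← add_assoc, h2, vv, Valuation.map_add_eq_of_lt_left _ h1, ← ih]
  have hT0 : T n ≠ 0 := by
    intro h0
    rw [h0, vv, map_zero] at hcon
    exact absurd hcon (not_lt.2 zero_le)
  obtain ⟨D, hD⟩ := hlim (T n).intDegree
  have h3 := hD (n + D) (by omega)
  rw [key D, vv_ne_zero hT0] at h3
  exact lt_irrefl _ h3

lemma tail_exact (T : ℕ → RatFunc F) (B : ℕ → ℤᵐ⁰) (n0 : ℕ)
    (hanti : ∀ n, n0 ≤ n → B (n + 1) < B n)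
    (hV : ∀ n, n0 ≤ n → vv (T (n + 1) - T n) = B n) (hlim : Tends T) :
    ∀ n, n0 ≤ n → vv (T n) = B n := by
  intro n hn
  have h1 := tail_bound T B n0 (fun n hn => (hanti n hn).le) (fun n hn => (hV n hn).le) hlim
    (n + 1) (by omega)
  have h2 : vv (T (n + 1)) < vv (T (n + 1) - T n) := by
    rw [hV n hn]; exact h1.trans_lt (hanti n hn)
  have h3 : T n = T (n + 1) - (T (n + 1) - T n) := by ring
  rw [h3, vv, Valuation.map_sub_eq_of_lt_right _ h2]
  exact hV n hn

/-- `h(k) = k - (q-1) deg g_k`. -/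
noncomputable def hh (F : Type*) [Field F] [Fintype F] (k : ℕ) : ℤ :=
  (k : ℤ) - ((Fintype.card F : ℤ) - 1) * ((GG F k).natDegree : ℤ)

omit [DecidableEq (RatFunc F)] in
lemma hh_bound (k : ℕ) (hk : 1 ≤ k) :
    (k : ℤ) + (Fintype.card F : ℤ) - 1 ≤ (Fintype.card F : ℤ) * hh F k := by
  have h1 : (GG F k).natDegree * Fintype.card F ≤ k - 1 :=
    (Nat.mul_le_mul_right _ (natDegree_GG_le k)).trans (Nat.div_mul_le_self _ _)
  have h2 : ((GG F k).natDegree : ℤ) * (Fintype.card F : ℤ) ≤ (k : ℤ) - 1 := by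
    have : (((GG F k).natDegree * Fintype.card F : ℕ) : ℤ) ≤ ((k - 1 : ℕ) : ℤ) := by
      exact_mod_cast h1
    push_cast [Nat.cast_sub hk] at this
    exact this
  have h3 : (2 : ℤ) ≤ (Fintype.card F : ℤ) := by exact_mod_cast two_le_q (F := F)
  unfold hh
  nlinarith

omit [DecidableEq (RatFunc F)] in
lemma hh_pos (k : ℕ) (hk : 1 ≤ k) : 1 ≤ hh F k := by
  have h1 := hh_bound (F := F) k hk
  have h3 : (2 : ℤ) ≤ (Fintype.card F : ℤ) := by exact_mod_cast two_le_q (F := F)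
  have h4 : (1 : ℤ) ≤ (k : ℤ) := by exact_mod_cast hk
  by_contra h
  push Not at h
  nlinarith

omit [DecidableEq (RatFunc F)] in
lemma comp_xd_ne_zero (G : F[X]) (hG : G.coeff 0 = 1) (d : ℕ) :
    G.comp (xd F d) ≠ 0 ∧
      (G.comp (xd F d)).natDegree = G.natDegree * ((Fintype.card F - 1) * LL (Fintype.card F) d) := by
  constructor
  · cases d with
    | zero =>
      rw [xd, ← C_0, comp_C, ← coeff_zero_eq_eval_zero, hG]
      simp
    | succ d =>
      intro h
      have hGn : G ≠ 0 := by intro h0; rw [h0, coeff_zero] at hG; exact zero_ne_one hG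
      rw [comp_eq_zero_iff] at h
      rcases h with h | ⟨_, h⟩
      · exact hGn h
      · have h2 := natDegree_xd (F := F) (d + 1)
        rw [h, natDegree_C, LL_succ'] at h2
        have := two_le_q (F := F)
        have h5 : 0 < (Fintype.card F - 1) *
          (Fintype.card F * LL (Fintype.card F) d + Fintype.card F) := by
          apply Nat.mul_pos (by omega)
          omega
        omega
  · rw [natDegree_comp, natDegree_xd]

lemma vv_ell (d : ℕ) : vv (algebraMap F[X] (RatFunc F) (ell F d)) =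
    exp (LL (Fintype.card F) d : ℤ) := by
  rw [vv_poly (ell_ne_zero d), natDegree_ell]

lemma vv_SS (d k : ℕ) (hk1 : 1 ≤ k) (hk : k ≤ Fintype.card F ^ 2) :
    vv (SS F d k) = exp (-(hh F k * (LL (Fintype.card F) d : ℤ))) := by
  have h1 := SS_eq (F := F) d k hk1 hk
  have h2 := congrArg vv h1
  obtain ⟨h3, h4⟩ := comp_xd_ne_zero (GG F k) (coeff_GG_zero k) d
  have hq := two_le_q (F := F)
  rw [vv_poly h3, h4, vv, map_mul, map_pow] at h2
  have h5 := vv_ell (F := F) d
  rw [vv] at h5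
  rw [h5, ← exp_nsmul] at h2
  have h6 : vv (SS F d k) = exp (-(k • (LL (Fintype.card F) d : ℤ))) *
      (exp (k • (LL (Fintype.card F) d : ℤ)) * RatFunc.inftyValuation F (SS F d k)) := by
    rw [← mul_assoc, ← exp_add, neg_add_cancel, exp_zero, one_mul]
  rw [h6, h2, ← exp_add]
  congr 1
  unfold hh
  push_cast [Nat.cast_sub (show 1 ≤ Fintype.card F by omega)]
  rw [nsmul_eq_mul]
  ring

omit [DecidableEq (RatFunc F)] in
lemma LL_strictMono (d : ℕ) : LL (Fintype.card F) d < LL (Fintype.card F) (d + 1) := by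
  rw [LL_succ]
  have := pow_pos (q_pos (F := F)) (d + 1)
  omega

omit [DecidableEq (RatFunc F)] in
lemma le_LL (d : ℕ) : d ≤ LL (Fintype.card F) d := by
  induction d with
  | zero => simp
  | succ d ih => have := LL_strictMono (F := F) d; omega

/-- `S_{<d}(k)`. -/
noncomputable def Slt (F : Type*) [Field F] [Fintype F] (d k : ℕ) : RatFunc F :=
  ∑ e ∈ Finset.range d, SS F e k

lemma vv_Slt (d k : ℕ) (hk1 : 1 ≤ k) (hk : k ≤ Fintype.card F ^ 2) :
    vv (Slt F (d + 1) k) = 1 := by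
  induction d with
  | zero =>
    have := vv_SS (F := F) 0 k hk1 hk
    rw [LL_zero] at this
    simp only [Nat.cast_zero, mul_zero, neg_zero, exp_zero] at this
    unfold Slt
    rw [Finset.sum_range_one]; exact this
  | succ d ih =>
    have h1 : Slt F (d + 1 + 1) k = Slt F (d + 1) k + SS F (d + 1) k := by
      unfold Slt; rw [Finset.sum_range_succ]
    have h2 : vv (SS F (d + 1) k) < vv (Slt F (d + 1) k) := by
      rw [ih, vv_SS _ _ hk1 hk, ← exp_zero, exp_lt_exp]
      have h3 := hh_pos (F := F) k hk1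
      have h4 := le_LL (F := F) (d + 1)
      have h5 : (1 : ℤ) ≤ (LL (Fintype.card F) (d + 1) : ℤ) := by
        exact_mod_cast (show 1 ≤ LL (Fintype.card F) (d + 1) by omega)
      nlinarith
    rw [h1, vv, Valuation.map_add_eq_of_lt_left _ h2]
    exact ih

/-- The truncated difference `∑_{e<d} S_e(s₁) S_{<e}(s₂) - c S_{<d}(s₁+s₂)`. -/
noncomputable def TT (s1 s2 : ℕ) (c : RatFunc F) (d : ℕ) : RatFunc F :=
  ∑ e ∈ Finset.range d, (SS F e s1 * Slt F e s2) - c * Slt F d (s1 + s2)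

omit [DecidableEq (RatFunc F)] in
lemma TT_succ (s1 s2 : ℕ) (c : RatFunc F) (d : ℕ) :
    TT s1 s2 c (d + 1) - TT s1 s2 c d = SS F d s1 * Slt F d s2 - c * SS F d (s1 + s2) := by
  unfold TT
  have h : Slt F (d + 1) (s1 + s2) = Slt F d (s1 + s2) + SS F d (s1 + s2) := by
    unfold Slt; rw [Finset.sum_range_succ]
  rw [h, Finset.sum_range_succ]; ring

omit [DecidableEq (RatFunc F)] in
lemma TT_zero (s1 s2 : ℕ) (c : RatFunc F) : TT s1 s2 c 0 = 0 := by
  unfold TT Slt; simp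

/-- `P_d = ℓ_d^{s₂} S_{≤d}(s₂)`. -/
noncomputable def Pa (F : Type*) [Field F] [Fintype F] (s2 : ℕ) : ℕ → F[X]
  | 0 => 1
  | d + 1 => zz F (d + 1) ^ s2 * Pa F s2 d + (GG F s2).comp (xd F (d + 1))

omit [DecidableEq (RatFunc F)] in
lemma Pa_eq (s2 : ℕ) (h1 : 1 ≤ s2) (h2 : s2 ≤ Fintype.card F ^ 2) (d : ℕ) :
    algebraMap F[X] (RatFunc F) (Pa F s2 d) =
      (algebraMap F[X] (RatFunc F) (ell F d)) ^ s2 * Slt F (d + 1) s2 := by
  induction d with
  | zero =>
    have h3 := SS_eq (F := F) 0 s2 h1 h2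
    have h4 : (GG F s2).comp (xd F 0) = 1 := by
      rw [xd, ← C_0, comp_C, ← coeff_zero_eq_eval_zero, coeff_GG_zero, C_1]
    rw [h4, map_one] at h3
    unfold Slt
    rw [Finset.sum_range_one, h3, Pa, map_one]
  | succ d ih =>
    have h : Slt F (d + 1 + 1) s2 = Slt F (d + 1) s2 + SS F (d + 1) s2 := by
      unfold Slt; rw [Finset.sum_range_succ]
    rw [Pa, map_add, map_mul, map_pow, ih, ← SS_eq _ _ h1 h2, h, ell_succ, map_mul, mul_pow]
    ring

/-- `den(c) · N_d`, where `N_d = ℓ_d^w T_{d+1}`. -/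
noncomputable def Na (s1 s2 : ℕ) (nu de : F[X]) : ℕ → F[X]
  | 0 => - nu
  | d + 1 => zz F (d + 1) ^ s2 * (zz F (d + 1) ^ s1 * Na s1 s2 nu de d +
      de * (GG F s1).comp (xd F (d + 1)) * Pa F s2 d) - nu * (GG F (s1 + s2)).comp (xd F (d + 1))

omit [DecidableEq (RatFunc F)] in
lemma Na_eq (s1 s2 : ℕ) (nu de : F[X]) (c : RatFunc F)
    (hc : c * algebraMap F[X] (RatFunc F) de = algebraMap F[X] (RatFunc F) nu)
    (h1 : 1 ≤ s1) (h2 : 1 ≤ s2) (hw : s1 + s2 ≤ Fintype.card F ^ 2) (d : ℕ) :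
    algebraMap F[X] (RatFunc F) (Na s1 s2 nu de d) =
      algebraMap F[X] (RatFunc F) de *
        ((algebraMap F[X] (RatFunc F) (ell F d)) ^ (s1 + s2) * TT s1 s2 c (d + 1)) := by
  induction d with
  | zero =>
    have h0 := TT_succ (F := F) s1 s2 c 0
    rw [TT_zero, sub_zero] at h0
    have h3 := SS_eq (F := F) 0 (s1 + s2) (by omega) hw
    have h4 : (GG F (s1 + s2)).comp (xd F 0) = 1 := by
      rw [xd, ← C_0, comp_C, ← coeff_zero_eq_eval_zero, coeff_GG_zero, C_1]
    rw [h4, map_one] at h3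
    have h5 : Slt F 0 s2 = 0 := by unfold Slt; simp
    rw [h0, h5, Na, map_neg, ← hc]
    linear_combination (c * algebraMap F[X] (RatFunc F) de) * h3
  | succ d ih =>
    have h0 := TT_succ (F := F) s1 s2 c (d + 1)
    have h6 : TT s1 s2 c (d + 1 + 1) = TT s1 s2 c (d + 1) +
      (SS F (d + 1) s1 * Slt F (d + 1) s2 - c * SS F (d + 1) (s1 + s2)) := by rw [← h0]; ring
    rw [Na, map_sub, map_mul, map_mul, map_add, map_mul, map_mul, map_mul, ih, map_pow, map_pow,
      Pa_eq s2 h2 (by omega), ← SS_eq _ _ (show 1 ≤ s1 + s2 by omega) hw,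
      ← SS_eq _ _ h1 (by omega), h6, ell_succ, map_mul, ← hc, mul_pow, mul_pow]
    rw [pow_add (algebraMap F[X] (RatFunc F) (ell F d)),
      pow_add (algebraMap F[X] (RatFunc F) (zz F (d + 1)))]
    ring

omit [DecidableEq (RatFunc F)] in
lemma Na_ne_zero (s1 s2 : ℕ) (nu de : F[X]) (hnu : nu ≠ 0) (h2 : 1 ≤ s2)
    (d : ℕ) (hd : nu.natDegree ≤ d) : Na s1 s2 nu de (d + 1) ≠ 0 := by
  intro h
  have hdvd : zz F (d + 1) ∣ nu := by
    have h3 : zz F (d + 1) ∣ (GG F (s1 + s2)).comp (xd F (d + 1)) - 1 := by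
      have e1 := divX_mul_X_add (GG F (s1 + s2))
      have e2 := congrArg (fun f => f.comp (xd F (d + 1))) e1
      simp only [add_comp, mul_comp, X_comp, coeff_GG_zero, C_1, one_comp] at e2
      have e3 : (GG F (s1 + s2)).comp (xd F (d + 1)) - 1 =
        ((GG F (s1 + s2)).divX).comp (xd F (d + 1)) * xd F (d + 1) := by
        rw [← e2]; ring
      rw [e3]
      exact Dvd.dvd.mul_left (zz_dvd_xd d) _
    have h4 : zz F (d + 1) ∣ zz F (d + 1) ^ s2 := dvd_pow_self _ (by omega)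
    rw [Na] at h
    have h5 : nu = zz F (d + 1) ^ s2 * (zz F (d + 1) ^ s1 * Na s1 s2 nu de d +
      de * (GG F s1).comp (xd F (d + 1)) * Pa F s2 d) -
        nu * ((GG F (s1 + s2)).comp (xd F (d + 1)) - 1) := by
      linear_combination -h
    rw [h5]
    exact dvd_sub (Dvd.dvd.mul_right h4 _) (Dvd.dvd.mul_left h3 _)
  have h6 := natDegree_le_of_dvd hdvd hnu
  rw [natDegree_zz] at h6
  have h7 := Nat.lt_pow_self (two_le_q (F := F)) (n := d + 1)
  omega

end Pool.Agent.ZL
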