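import Pool.Agent.ZL8c.A4

open Polynomial WithZero

namespace Pool.Agent.ZL

variable {F : Type*} [Field F] [Fintype F] [DecidableEq (RatFunc F)]

lemma vv_first (s1 s2 : ℕ) (h1 : 1 ≤ s1) (h2 : 1 ≤ s2) (hw : s1 + s2 ≤ Fintype.card F ^ 2)
    (n : ℕ) (hn : 1 ≤ n) : vv (SS F n s1 * Slt F n s2) =
      exp (-(hh F s1 * (LL (Fintype.card F) n : ℤ))) := by
  obtain ⟨m, rfl⟩ : ∃ m, n = m + 1 := ⟨n - 1, by omega⟩
  have e1 := vv_SS (F := F) (m + 1) s1 h1 (by omega)
  have e2 := vv_Slt (F := F) m s2 h2 (by omega)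
  rw [vv] at e1 e2
  rw [vv, map_mul, e1, e2, mul_one]

lemma analytic_ne_zero (s1 s2 : ℕ) (h1 : 1 ≤ s1) (h2 : 1 ≤ s2)
    (hw : s1 + s2 ≤ Fintype.card F ^ 2) (c : RatFunc F) (hlim : Tends (TT s1 s2 c)) :
    c ≠ 0 := by
  rintro rfl
  have hh1 := hh_pos (F := F) s1 h1
  have key := tail_exact (TT s1 s2 (0 : RatFunc F))
    (fun n => exp (-(hh F s1 * (LL (Fintype.card F) n : ℤ)))) 1 (by
      intro n _
      rw [exp_lt_exp]
      have h3 : (LL (Fintype.card F) n : ℤ) < (LL (Fintype.card F) (n + 1) : ℤ) := by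
        exact_mod_cast LL_strictMono (F := F) n
      nlinarith) (by
      intro n hn
      rw [TT_succ, zero_mul, sub_zero, vv_first s1 s2 h1 h2 hw n hn]) hlim 1 le_rfl
  have h0 := TT_succ (F := F) s1 s2 0 0
  rw [TT_zero, sub_zero] at h0
  have h5 : Slt F 0 s2 = 0 := by unfold Slt; simp
  rw [h5] at h0
  have h6 : TT s1 s2 (0 : RatFunc F) 1 = 0 := by rw [h0]; ring
  rw [h6, vv, map_zero] at key
  exact exp_ne_zero key.symm

lemma vv_second (w : ℕ) (h1 : 1 ≤ w) (hw : w ≤ Fintype.card F ^ 2) (c : RatFunc F) (hc : c ≠ 0)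
    (n : ℕ) : vv (c * SS F n w) =
      exp (c.intDegree - (hh F w * (LL (Fintype.card F) n : ℤ))) := by
  have e1 := vv_SS (F := F) n w h1 hw
  have e2 := vv_ne_zero hc
  rw [vv] at e1 e2
  rw [vv, map_mul, e1, e2, ← exp_add]
  congr 1

lemma vv_Na (s1 s2 : ℕ) (nu de : F[X]) (c : RatFunc F) (hde : de ≠ 0)
    (hc : c * algebraMap F[X] (RatFunc F) de = algebraMap F[X] (RatFunc F) nu)
    (h1 : 1 ≤ s1) (h2 : 1 ≤ s2) (hw : s1 + s2 ≤ Fintype.card F ^ 2) (d : ℕ) :
    vv (algebraMap F[X] (RatFunc F) (Na s1 s2 nu de d)) =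
      exp ((de.natDegree : ℤ) + ((s1 + s2 : ℕ) : ℤ) * (LL (Fintype.card F) d : ℤ)) *
        vv (TT s1 s2 c (d + 1)) := by
  have e1 := vv_poly hde
  have e2 := vv_ell (F := F) d
  rw [vv] at e1 e2
  rw [Na_eq s1 s2 nu de c hc h1 h2 hw, vv, map_mul, map_mul, map_pow, e1, e2, ← exp_nsmul,
    exp_add, nsmul_eq_mul, mul_assoc]

lemma analytic_hh (s1 s2 : ℕ) (h1 : 1 ≤ s1) (h2 : 1 ≤ s2)
    (hw : s1 + s2 ≤ Fintype.card F ^ 2) (c : RatFunc F) (nu de : F[X]) (hde : de ≠ 0)
    (hc : c * algebraMap F[X] (RatFunc F) de = algebraMap F[X] (RatFunc F) nu)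
    (hlim : Tends (TT s1 s2 c)) :
    hh F s1 < hh F (s1 + s2) := by
  have hc0 := analytic_ne_zero s1 s2 h1 h2 hw c hlim
  have hnu : nu ≠ 0 := by
    rintro rfl
    rw [map_zero, mul_eq_zero, map_eq_zero_iff _ (RatFunc.algebraMap_injective F)] at hc
    rcases hc with h | h
    · exact hc0 h
    · exact hde h
  by_contra hcon
  push Not at hcon
  have hhw := hh_pos (F := F) (s1 + s2) (by omega)
  set κ : ℤ := max 0 c.intDegree with hκ
  have hκ0 : 0 ≤ κ := le_max_left _ _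
  have hκ1 : c.intDegree ≤ κ := le_max_right _ _
  have key := tail_bound (TT s1 s2 c)
    (fun n => exp (κ - (hh F (s1 + s2) * (LL (Fintype.card F) n : ℤ)))) 1 (by
      intro n _
      rw [exp_le_exp]
      have h3 : (LL (Fintype.card F) n : ℤ) < (LL (Fintype.card F) (n + 1) : ℤ) := by
        exact_mod_cast LL_strictMono (F := F) n
      nlinarith) (by
      intro n hn
      rw [TT_succ]
      apply Valuation.map_sub_le
      · have := vv_first (F := F) s1 s2 h1 h2 hw n hn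
        rw [vv] at this
        rw [this, exp_le_exp]
        have h3 : (0 : ℤ) ≤ (LL (Fintype.card F) n : ℤ) := Nat.cast_nonneg _
        nlinarith
      · have := vv_second (F := F) (s1 + s2) (by omega) hw c hc0 n
        rw [vv] at this
        rw [this, exp_le_exp]
        linarith) hlim
  have hb := hh_bound (F := F) (s1 + s2) (by omega)
  have hq : (2 : ℤ) ≤ (Fintype.card F : ℤ) := by exact_mod_cast two_le_q (F := F)
  set d : ℕ := nu.natDegree + de.natDegree + κ.toNat with hd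
  have hNa := Na_ne_zero s1 s2 nu de hnu h2 d (by omega)
  apply hNa
  apply poly_eq_zero_of_vv_lt
  rw [vv_Na s1 s2 nu de c hde hc h1 h2 hw]
  have hk := key (d + 1 + 1) (by omega)
  refine lt_of_le_of_lt (mul_le_mul_right hk _) ?_
  rw [← exp_add, exp_lt_exp, LL_succ' _ (d + 1)]
  have h5 : (d : ℤ) < (LL (Fintype.card F) (d + 1) : ℤ) := by
    exact_mod_cast (show d < LL (Fintype.card F) (d + 1) by
      have := le_LL (F := F) (d + 1); omega)
  have h6 : (de.natDegree : ℤ) + κ ≤ (d : ℤ) := by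
    rw [hd]; push_cast; rw [Int.toNat_of_nonneg hκ0]
    have : (0 : ℤ) ≤ (nu.natDegree : ℤ) := Nat.cast_nonneg _
    linarith
  push_cast at hb ⊢
  set Λ : ℤ := (LL (Fintype.card F) (d + 1) : ℤ)
  set H := hh F (s1 + s2)
  set Q : ℤ := (Fintype.card F : ℤ)
  have h7 : (Q * H - (s1 + s2)) * Λ ≥ 1 * Λ := by
    apply mul_le_mul_of_nonneg_right _ (by linarith [Nat.cast_nonneg (α := ℤ) d])
    linarith
  nlinarith

lemma analytic_deg (s1 s2 : ℕ) (h1 : 1 ≤ s1) (h2 : 1 ≤ s2)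
    (hw : s1 + s2 ≤ Fintype.card F ^ 2) (c : RatFunc F) (nu de : F[X]) (hde : de ≠ 0)
    (hc : c * algebraMap F[X] (RatFunc F) de = algebraMap F[X] (RatFunc F) nu)
    (hlim : Tends (TT s1 s2 c)) :
    nu ≠ 0 ∧ ∃ D, ∀ d, D ≤ d → Na s1 s2 nu de d ≠ 0 ∧
      ((Na s1 s2 nu de d).natDegree : ℤ) = de.natDegree +
        (((s1 + s2 : ℕ) : ℤ) - Fintype.card F * hh F s1) * (LL (Fintype.card F) d : ℤ) -
          Fintype.card F * hh F s1 := by
  have hc0 := analytic_ne_zero s1 s2 h1 h2 hw c hlim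
  have hnu : nu ≠ 0 := by
    rintro rfl
    rw [map_zero, mul_eq_zero, map_eq_zero_iff _ (RatFunc.algebraMap_injective F)] at hc
    rcases hc with h | h
    · exact hc0 h
    · exact hde h
  have hlt := analytic_hh s1 s2 h1 h2 hw c nu de hde hc hlim
  have hh1 := hh_pos (F := F) s1 h1
  refine ⟨hnu, nu.natDegree + c.intDegree.toNat + 1, ?_⟩
  intro d hd
  obtain ⟨d, rfl⟩ : ∃ e, d = e + 1 := ⟨d - 1, by omega⟩
  have hNa := Na_ne_zero s1 s2 nu de hnu h2 d (by omega)
  refine ⟨hNa, ?_⟩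
  have key := tail_exact (TT s1 s2 c)
    (fun n => exp (-(hh F s1 * (LL (Fintype.card F) n : ℤ)))) (c.intDegree.toNat + 1) (by
      intro n _
      rw [exp_lt_exp]
      have h3 : (LL (Fintype.card F) n : ℤ) < (LL (Fintype.card F) (n + 1) : ℤ) := by
        exact_mod_cast LL_strictMono (F := F) n
      nlinarith) (by
      intro n hn
      rw [TT_succ]
      have e1 := vv_first (F := F) s1 s2 h1 h2 hw n (by omega)
      have e2 := vv_second (F := F) (s1 + s2) (by omega) hw c hc0 n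
      have e3 : vv (c * SS F n (s1 + s2)) < vv (SS F n s1 * Slt F n s2) := by
        rw [e1, e2, exp_lt_exp]
        have h4 : c.intDegree < (LL (Fintype.card F) n : ℤ) := by
          have h5 := le_LL (F := F) n
          have h6 := Int.self_le_toNat c.intDegree
          have h7 : ((c.intDegree.toNat + 1 : ℕ) : ℤ) ≤ (LL (Fintype.card F) n : ℤ) := by
            exact_mod_cast hn.trans h5
          push_cast at h7
          linarith
        have h8 : (0 : ℤ) ≤ (LL (Fintype.card F) n : ℤ) := Nat.cast_nonneg _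
        nlinarith
      rw [vv, Valuation.map_sub_eq_of_lt_left _ e3]
      exact e1) hlim (d + 1 + 1) (by omega)
  have h9 := vv_Na s1 s2 nu de c hde hc h1 h2 hw (d + 1)
  rw [key, vv_poly hNa, ← exp_add, exp_inj] at h9
  rw [h9, LL_succ' _ (d + 1)]
  push_cast
  ring

end Pool.Agent.ZL
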