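import Pool.Agent.ZL8c.A5

open Polynomial

namespace Pool.Agent.ZL

variable {F : Type*} [Field F] [Fintype F]

lemma GG_full (k : ℕ) (h : Fintype.card F - 1 - (k - 1) % Fintype.card F ≤
    (k - 1) / Fintype.card F) :
    GG F k = (1 + X) ^ (Fintype.card F - 1 - (k - 1) % Fintype.card F) := by
  ext b
  rw [coeff_GG, coeff_one_add_X_pow]
  split_ifs with hb
  · rfl
  · rw [Nat.choose_eq_zero_of_lt (by omega), Nat.cast_zero]

lemma GG_mul (j : ℕ) (hj1 : 1 ≤ j) (hj : j ≤ Fintype.card F) :
    GG F (j * (Fintype.card F - 1)) = (1 + X) ^ j - X ^ j := by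
  have hq := two_le_q (F := F)
  rcases Nat.lt_or_ge j (Fintype.card F) with h | h
  · have e1 : j * (Fintype.card F - 1) - 1 =
        (Fintype.card F - 1 - j) + (j - 1) * Fintype.card F := by
      obtain ⟨r, hr⟩ : ∃ r, Fintype.card F = r + 1 := ⟨Fintype.card F - 1, by omega⟩
      obtain ⟨i, rfl⟩ : ∃ i, j = i + 1 := ⟨j - 1, by omega⟩
      rw [hr] at h hq ⊢
      simp only [Nat.add_sub_cancel]
      rw [add_mul, mul_add]
      have : i * 1 = i := mul_one i
      omega
    have e2 : (j * (Fintype.card F - 1) - 1) / Fintype.card F = j - 1 := by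
      rw [e1, Nat.add_mul_div_right _ _ (by omega), Nat.div_eq_of_lt (by omega), zero_add]
    have e3 : (j * (Fintype.card F - 1) - 1) % Fintype.card F = Fintype.card F - 1 - j := by
      rw [e1, Nat.add_mul_mod_self_right, Nat.mod_eq_of_lt (by omega)]
    ext b
    rw [coeff_GG, e2, e3, coeff_sub, coeff_one_add_X_pow, coeff_X_pow]
    have e4 : Fintype.card F - 1 - (Fintype.card F - 1 - j) = j := by omega
    rw [e4]
    rcases lt_trichotomy b j with hb | hb | hb
    · rw [if_pos (by omega), if_neg (by omega), sub_zero]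
    · rw [if_neg (by omega), if_pos hb, hb, Nat.choose_self]; simp
    · rw [if_neg (by omega), if_neg (by omega), Nat.choose_eq_zero_of_lt hb]; simp
  · have hjq : j = Fintype.card F := by omega
    have e1 : j * (Fintype.card F - 1) - 1 =
        (Fintype.card F - 1) + (Fintype.card F - 2) * Fintype.card F := by
      rw [hjq]
      obtain ⟨r, hr⟩ : ∃ r, Fintype.card F = r + 2 := ⟨Fintype.card F - 2, by omega⟩
      rw [hr]
      simp only [Nat.add_sub_cancel, show r + 2 - 1 = r + 1 by omega]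
      have : (r + 2) * (r + 1) = r * (r + 2) + (r + 2) := by ring
      omega
    have e2 : (j * (Fintype.card F - 1) - 1) / Fintype.card F = Fintype.card F - 2 := by
      rw [e1, Nat.add_mul_div_right _ _ (by omega), Nat.div_eq_of_lt (by omega), zero_add]
    have e3 : (j * (Fintype.card F - 1) - 1) % Fintype.card F = Fintype.card F - 1 := by
      rw [e1, Nat.add_mul_mod_self_right, Nat.mod_eq_of_lt (by omega)]
    rw [GG_full _ (by rw [e2, e3]; omega), e3, Nat.sub_self, pow_zero, hjq, frob_add, one_pow]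
    ring

lemma xd_succ_eq (d : ℕ) : xd F (d + 1) = zz F (d + 1) ^ (Fintype.card F - 1) * (1 + xd F d) := by
  rw [xd, zz_succ_eq d, mul_pow, mul_assoc, ← pow_succ, Nat.sub_add_cancel q_pos]

lemma Pa_mul (j : ℕ) (hj1 : 1 ≤ j) (hj : j ≤ Fintype.card F) (d : ℕ) :
    Pa F (j * (Fintype.card F - 1)) d = (1 + xd F d) ^ j := by
  induction d with
  | zero => simp [Pa, xd]
  | succ d ih =>
    rw [Pa, ih, GG_mul j hj1 hj]
    simp only [sub_comp, pow_comp, add_comp, one_comp, X_comp]
    have : zz F (d + 1) ^ (j * (Fintype.card F - 1)) * (1 + xd F d) ^ j = xd F (d + 1) ^ j := by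
      rw [xd_succ_eq d, mul_pow, ← pow_mul, mul_comm j]
    rw [this]; ring

/-- the low part of `g_w`: terms `X^b` with `q b < s₂`. -/
noncomputable def Glt (F : Type*) [Field F] [Fintype F] (w s2 : ℕ) : F[X] :=
  ∑ b ∈ (GG F w).support.filter (fun b => Fintype.card F * b < s2), C ((GG F w).coeff b) * X ^ b

lemma coeff_Glt (w s2 b : ℕ) : (Glt F w s2).coeff b =
    if Fintype.card F * b < s2 then (GG F w).coeff b else 0 := by
  rw [Glt, finsetSum_coeff]
  simp only [coeff_C_mul, coeff_X_pow, mul_ite, mul_one, mul_zero]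
  rw [Finset.sum_ite_eq]
  by_cases h1 : Fintype.card F * b < s2
  · by_cases h2 : (GG F w).coeff b = 0
    · rw [h2]; simp
    · rw [if_pos (Finset.mem_filter.2 ⟨mem_support_iff.2 h2, h1⟩), if_pos h1]
  · rw [if_neg (show ¬ (b ∈ (GG F w).support.filter (fun b => Fintype.card F * b < s2)) from
      fun h => h1 (Finset.mem_filter.1 h).2), if_neg h1]

lemma Glt_coeff_zero (w s2 : ℕ) (h2 : 1 ≤ s2) : (Glt F w s2).coeff 0 = 1 := by
  rw [coeff_Glt, if_pos (by omega), coeff_GG_zero]

lemma Glt_ne_zero (w s2 : ℕ) (h2 : 1 ≤ s2) : Glt F w s2 ≠ 0 := by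
  intro h
  have := Glt_coeff_zero (F := F) w s2 h2
  rw [h, coeff_zero] at this
  exact zero_ne_one this

lemma Glt_natDegree (w s2 : ℕ) (h2 : 1 ≤ s2) :
    Fintype.card F * (Glt F w s2).natDegree < s2 ∧
    (Glt F w s2).natDegree ≤ Fintype.card F - 1 - (w - 1) % Fintype.card F := by
  have h := leadingCoeff_ne_zero.2 (Glt_ne_zero (F := F) w s2 h2)
  rw [leadingCoeff, coeff_Glt] at h
  constructor
  · by_contra hc
    rw [if_neg hc] at h
    exact h rfl
  · by_contra hc
    split_ifs at h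
    · rw [coeff_GG, Nat.choose_eq_zero_of_lt (by omega)] at h
      simp at h
    · exact h rfl

lemma dvd_Gge (w s2 d : ℕ) : zz F (d + 1) ^ s2 ∣ zz F 1 ^ (GG F w).natDegree *
    (GG F w - Glt F w s2).comp (xd F (d + 1)) := by
  set m := (GG F w).natDegree
  have hdeg : (GG F w - Glt F w s2).natDegree < m + 1 := by
    rw [Nat.lt_succ_iff, natDegree_le_iff_coeff_eq_zero]
    intro N hN
    rw [coeff_sub, coeff_Glt, coeff_eq_zero_of_natDegree_lt hN]; simp
  rw [comp, eval₂_eq_sum_range' C hdeg, Finset.mul_sum]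
  apply Finset.dvd_sum
  intro b hb
  rw [Finset.mem_range] at hb
  rw [coeff_sub, coeff_Glt]
  by_cases hc : Fintype.card F * b < s2
  · rw [if_pos hc, sub_self]; simp
  · rw [if_neg hc, sub_zero]
    have e1 : zz F 1 ^ m = zz F 1 ^ (m - b) * zz F 1 ^ b := by
      rw [← pow_add]; congr 1; omega
    have e2 : zz F 1 ^ b * xd F (d + 1) ^ b = zz F (d + 1) ^ (Fintype.card F * b) := by
      rw [← mul_pow, z1_mul_xd, ← pow_mul]
    have e3 : zz F 1 ^ m * (C ((GG F w).coeff b) * xd F (d + 1) ^ b) =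
      zz F (d + 1) ^ (Fintype.card F * b) * (zz F 1 ^ (m - b) * C ((GG F w).coeff b)) := by
      rw [e1, ← e2]; ring
    rw [e3]
    exact Dvd.dvd.mul_right (pow_dvd_pow _ (by omega)) _

omit [Fintype F] in
/-- If a polynomial is divisible by a polynomial of larger degree, it vanishes. -/
lemma eq_zero_of_dvd_of_lt {a b : F[X]} (h : a ∣ b) (hlt : b.natDegree < a.natDegree) : b = 0 := by
  by_contra h0
  have := natDegree_le_of_dvd h h0
  omega

/-- Regime 1, first step: `den(c) N_{d+1} = - num(c) g^<(X_{d+1})` for large `d`. -/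
lemma regime1_eq (s1 s2 : ℕ) (h2 : 1 ≤ s2) (nu de : F[X])
    (A H : ℤ) (D : ℕ) (hA : A = ((s1 + s2 : ℕ) : ℤ) - Fintype.card F * H) (hH : 1 ≤ H)
    (hN : ∀ d, D ≤ d → Na s1 s2 nu de d ≠ 0 ∧
      ((Na s1 s2 nu de d).natDegree : ℤ) = de.natDegree +
        A * (LL (Fintype.card F) d : ℤ) - Fintype.card F * H)
    (hR : (Fintype.card F : ℤ) * A < ((Fintype.card F : ℤ) - 1) * s2) :
    ∃ D', ∀ d, D' ≤ d → D ≤ d ∧
      Na s1 s2 nu de (d + 1) = - (nu * (Glt F (s1 + s2) s2).comp (xd F (d + 1))) := by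
  have hq := two_le_q (F := F)
  set m := (GG F (s1 + s2)).natDegree with hm
  set b' := (Glt F (s1 + s2) s2).natDegree with hb'
  obtain ⟨hb1, hb2⟩ := Glt_natDegree (F := F) (s1 + s2) s2 h2
  rw [← hb'] at hb1 hb2
  refine ⟨D + nu.natDegree + Fintype.card F * m +
    Fintype.card F * (de.natDegree + Fintype.card F * m), ?_⟩
  intro d hd
  refine ⟨by omega, ?_⟩
  obtain ⟨hne, hdeg⟩ := hN (d + 1) (by omega)
  -- divisibility
  have hdvd : zz F (d + 1) ^ s2 ∣ zz F 1 ^ m * (Na s1 s2 nu de (d + 1) +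
      nu * (Glt F (s1 + s2) s2).comp (xd F (d + 1))) := by
    have e1 := dvd_Gge (F := F) (s1 + s2) s2 d
    rw [← hm] at e1
    have e2 : zz F 1 ^ m * (Na s1 s2 nu de (d + 1) +
      nu * (Glt F (s1 + s2) s2).comp (xd F (d + 1))) =
      zz F (d + 1) ^ s2 * (zz F 1 ^ m * (zz F (d + 1) ^ s1 * Na s1 s2 nu de d +
      de * (GG F s1).comp (xd F (d + 1)) * Pa F s2 d)) - nu * (zz F 1 ^ m *
        (GG F (s1 + s2) - Glt F (s1 + s2) s2).comp (xd F (d + 1))) := by
      rw [Na, sub_comp]; ring
    rw [e2]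
    exact dvd_sub (dvd_mul_right _ _) (Dvd.dvd.mul_left e1 _)
  -- degree estimates
  have hQ : d + 1 < Fintype.card F ^ (d + 1) := Nat.lt_pow_self hq
  have hLL := LL_mul (Fintype.card F) (d + 1) q_pos
  have hdeg1 : (zz F 1 ^ m * Na s1 s2 nu de (d + 1)).natDegree <
      Fintype.card F ^ (d + 1) * s2 := by
    refine lt_of_le_of_lt (natDegree_mul_le.trans (Nat.add_le_add_right natDegree_pow_le _)) ?_
    rw [natDegree_zz]
    simp only [zero_add, pow_one]
    have e1 : ((Fintype.card F : ℤ) - 1) * (LL (Fintype.card F) (d + 1) : ℤ) + Fintype.card F =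
        Fintype.card F * (Fintype.card F : ℤ) ^ (d + 1) := by
      have : (((Fintype.card F - 1) * LL (Fintype.card F) (d + 1) + Fintype.card F : ℕ) : ℤ) =
        ((Fintype.card F ^ (d + 1 + 1) : ℕ) : ℤ) := by exact_mod_cast hLL
      push_cast [Nat.cast_sub (show 1 ≤ Fintype.card F by omega)] at this
      rw [this]; ring
    have e4 : (Fintype.card F : ℤ) * (de.natDegree + Fintype.card F * m) + 1 ≤
        (Fintype.card F : ℤ) ^ (d + 1) := by
      have : Fintype.card F * (de.natDegree + Fintype.card F * m) + 1 ≤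
        Fintype.card F ^ (d + 1) := by omega
      exact_mod_cast this
    have hq' : (2 : ℤ) ≤ (Fintype.card F : ℤ) := by exact_mod_cast hq
    have hs2 : (1 : ℤ) ≤ (s2 : ℤ) := by exact_mod_cast h2
    have hL0 : (0 : ℤ) ≤ (LL (Fintype.card F) (d + 1) : ℤ) := Nat.cast_nonneg _
    have hm0 : (0 : ℤ) ≤ (m : ℤ) := Nat.cast_nonneg _
    have hd0 : (0 : ℤ) ≤ (de.natDegree : ℤ) := Nat.cast_nonneg _
    have goalZ : (m : ℤ) * Fintype.card F + (Na s1 s2 nu de (d + 1)).natDegree <
        (Fintype.card F : ℤ) ^ (d + 1) * s2 := by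
      rw [hdeg]
      clear_value m b'
      generalize (LL (Fintype.card F) (d + 1) : ℤ) = Λ at *
      generalize (Fintype.card F : ℤ) ^ (d + 1) = Q at *
      generalize (Fintype.card F : ℤ) = q at *
      generalize (de.natDegree : ℤ) = δ at *
      generalize (m : ℤ) = μ at *
      generalize (s2 : ℤ) = σ at *
      have hq0 : (0 : ℤ) ≤ q := by linarith
      have hQ0 : 1 ≤ Q := by
        have u1 := mul_nonneg hq0 hd0
        have u2 := mul_nonneg hq0 (mul_nonneg hq0 hm0)
        linarith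
      rcases lt_or_ge A 0 with hA0 | hA0
      · have t1 : A * Λ ≤ 0 := mul_nonpos_of_nonpos_of_nonneg hA0.le hL0
        have t2 : Q * 1 ≤ Q * σ := mul_le_mul_of_nonneg_left hs2 (by linarith)
        have t3 : 0 ≤ q * H := mul_nonneg (by linarith) (by linarith)
        have t4 : δ + q * μ ≤ q * (δ + q * μ) := by
          have : 0 ≤ δ + q * μ := add_nonneg hd0 (mul_nonneg (by linarith) hm0)
          exact le_mul_of_one_le_left this (by linarith)
        linarith
      · have t0 : q * A + 1 ≤ (q - 1) * σ := by linarith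
        have t1 : Q * (q * A + 1) ≤ Q * ((q - 1) * σ) :=
          mul_le_mul_of_nonneg_left t0 (by linarith)
        have t2 : A * ((q - 1) * Λ + q) = A * (q * Q) := by rw [e1]
        have t3 : 0 ≤ A * q := mul_nonneg hA0 (by linarith)
        have t4 : 0 ≤ (q - 1) * (q * H) := mul_nonneg (by linarith)
          (mul_nonneg (by linarith) (by linarith))
        have t5 : (q - 1) * (δ + q * μ) ≤ q * (δ + q * μ) := by
          have : 0 ≤ δ + q * μ := add_nonneg hd0 (mul_nonneg (by linarith) hm0)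
          linarith
        have t6 : (q - 1) * (μ * q + (δ + A * Λ - q * H)) < (q - 1) * (Q * σ) := by
          linarith
        exact lt_of_mul_lt_mul_left t6 (by linarith)
    have : ((m * Fintype.card F + (Na s1 s2 nu de (d + 1)).natDegree : ℕ) : ℤ) <
        ((Fintype.card F ^ (d + 1) * s2 : ℕ) : ℤ) := by
      push_cast; exact goalZ
    exact_mod_cast this
  have hdeg2 : (zz F 1 ^ m * (nu * (Glt F (s1 + s2) s2).comp (xd F (d + 1)))).natDegree <
      Fintype.card F ^ (d + 1) * s2 := by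
    refine lt_of_le_of_lt (natDegree_mul_le.trans (Nat.add_le_add natDegree_pow_le
      (natDegree_mul_le.trans (Nat.add_le_add_left natDegree_comp_le _)))) ?_
    rw [natDegree_zz, ← hb', natDegree_xd]
    simp only [zero_add, pow_one]
    have t1 : b' * ((Fintype.card F - 1) * LL (Fintype.card F) (d + 1)) ≤
        b' * (Fintype.card F * Fintype.card F ^ (d + 1)) := by
      apply Nat.mul_le_mul_left
      rw [← pow_succ']; omega
    have t2 : (Fintype.card F * b' + 1) * Fintype.card F ^ (d + 1) ≤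
        s2 * Fintype.card F ^ (d + 1) := Nat.mul_le_mul_right _ hb1
    have t3 : nu.natDegree + Fintype.card F * m < Fintype.card F ^ (d + 1) := by omega
    linarith
  have hz : zz F 1 ^ m * (Na s1 s2 nu de (d + 1) +
      nu * (Glt F (s1 + s2) s2).comp (xd F (d + 1))) = 0 := by
    apply eq_zero_of_dvd_of_lt hdvd
    rw [natDegree_pow, natDegree_zz, mul_comm s2, mul_add]
    exact lt_of_le_of_lt (natDegree_add_le _ _) (max_lt hdeg1 hdeg2)
  rw [mul_eq_zero] at hz
  rcases hz with hz | hz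
  · exact absurd hz (pow_ne_zero _ (zz_ne_zero 0))
  · exact eq_neg_of_add_eq_zero_left hz

end Pool.Agent.ZL
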