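import Pool.Agent.ZL8c.A6

open Polynomial

namespace Pool.Agent.ZL

variable {F : Type*} [Field F] [Fintype F]

omit [Fintype F] in
lemma algebraMap_comp (G x : F[X]) : algebraMap F[X] (RatFunc F) (G.comp x) =
    (G.map (RatFunc.C (K := F))).eval (algebraMap F[X] (RatFunc F) x) := by
  rw [comp, hom_eval₂, eval_map]
  congr 1

/-- Regime 1, second step: the polynomial identity. -/
lemma regime1_poly (s1 j : ℕ) (nu de : F[X]) (hj1 : 1 ≤ j) (hj : j ≤ Fintype.card F) (D' : ℕ)
    (hD : ∀ d, D' ≤ d → Na s1 (j * (Fintype.card F - 1)) nu de (d + 1) =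
      - (nu * (Glt F (s1 + j * (Fintype.card F - 1)) (j * (Fintype.card F - 1))).comp
        (xd F (d + 1)))) :
    C (algebraMap F[X] (RatFunc F) nu) *
      (expand (RatFunc F) (Fintype.card F) (((GG F (s1 + j * (Fintype.card F - 1)) -
        Glt F (s1 + j * (Fintype.card F - 1)) (j * (Fintype.card F - 1))).map
          (RatFunc.C (K := F))).comp (C (zK F 1)⁻¹ * X)) +
      X ^ (s1 + j * (Fintype.card F - 1)) *
        (((Glt F (s1 + j * (Fintype.card F - 1)) (j * (Fintype.card F - 1))).comp (X - 1)).map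
          (RatFunc.C (K := F))).comp (C (zK F 1)⁻¹ * X)) =
    C (algebraMap F[X] (RatFunc F) de) *
      expand (RatFunc F) (Fintype.card F) (((X ^ j * GG F s1).map
        (RatFunc.C (K := F))).comp (C (zK F 1)⁻¹ * X)) := by
  set s2 := j * (Fintype.card F - 1) with hs2
  set w := s1 + s2 with hw
  apply Polynomial.eq_of_infinite_eval_eq
  have hinj : Function.Injective (fun e : ℕ => zK F (D' + 1 + e + 1)) := by
    intro e1 e2 h
    have h1 : zz F (D' + 1 + e1 + 1) = zz F (D' + 1 + e2 + 1) :=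
      RatFunc.algebraMap_injective F h
    have h2 := congrArg natDegree h1
    rw [natDegree_zz, natDegree_zz] at h2
    have h3 := Nat.pow_right_injective (two_le_q (F := F)) h2
    omega
  refine (Set.infinite_range_of_injective hinj).mono ?_
  rintro _ ⟨e, rfl⟩
  change eval _ _ = eval _ _
  set d := D' + 1 + e with hd
  have hz1 := zK_ne_zero (F := F) 0
  have hN1 := hD d (by omega)
  have hN2 := hD (d - 1) (by omega)
  rw [show d - 1 + 1 = d by omega] at hN2
  rw [Na, hN2, Pa_mul j hj1 hj] at hN1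
  have hx : zz F (d + 1) ^ s2 * (1 + xd F d) ^ j = xd F (d + 1) ^ j := by
    rw [xd_succ_eq d, mul_pow, ← pow_mul, mul_comm (Fintype.card F - 1)]
  have hid : nu * ((GG F w - Glt F w s2).comp (xd F (d + 1)) +
      zz F (d + 1) ^ w * (Glt F w s2).comp (xd F d)) =
      de * ((X ^ j * GG F s1).comp (xd F (d + 1))) := by
    rw [mul_comp, X_pow_comp, sub_comp, hw, pow_add, ← hx]
    linear_combination -hN1
  have hid' := congrArg (algebraMap F[X] (RatFunc F)) hid
  have hxK : algebraMap F[X] (RatFunc F) (xd F (d + 1)) =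
      (zK F 1)⁻¹ * zK F (d + 1) ^ Fintype.card F := by
    have := congrArg (algebraMap F[X] (RatFunc F)) (z1_mul_xd (F := F) (d + 1))
    rw [map_mul, map_pow] at this
    change zK F 1 * _ = zK F (d + 1) ^ _ at this
    rw [← this, inv_mul_cancel_left₀ hz1]
  have hxK2 : 1 + algebraMap F[X] (RatFunc F) (xd F d) = (zK F 1)⁻¹ * zK F (d + 1) := by
    have := congrArg (algebraMap F[X] (RatFunc F)) (zz_succ_eq (F := F) d)
    rw [map_mul, map_add, map_one] at this
    change zK F (d + 1) = zK F 1 * _ at this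
    rw [this, inv_mul_cancel_left₀ hz1]
  have hG : (Glt F w s2).comp (xd F d) = ((Glt F w s2).comp (X - 1)).comp (1 + xd F d) := by
    rw [comp_assoc]; congr 1; simp
  rw [map_mul, map_add, map_mul, map_pow, map_mul, algebraMap_comp, hG, algebraMap_comp,
    algebraMap_comp, map_add, map_one, hxK, hxK2] at hid'
  simp only [eval_mul, eval_add, eval_C, expand_eval, eval_comp, eval_X, eval_pow]
  exact hid'

/-- Regime 1, third step: extracting the coefficients of the identity. -/
lemma regime1_final (s1 j : ℕ) (nu de : F[X]) (hnu : nu ≠ 0) (hde : de ≠ 0) (h1 : 1 ≤ s1)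
    (hj1 : 1 ≤ j) (hj : j ≤ Fintype.card F) (D' : ℕ)
    (hD : ∀ d, D' ≤ d → Na s1 (j * (Fintype.card F - 1)) nu de (d + 1) =
      - (nu * (Glt F (s1 + j * (Fintype.card F - 1)) (j * (Fintype.card F - 1))).comp
        (xd F (d + 1)))) : s1 ≤ j := by
  have hid := regime1_poly s1 j nu de hj1 hj D' hD
  have hq := two_le_q (F := F)
  set s2 := j * (Fintype.card F - 1) with hs2
  have hs2pos : 1 ≤ s2 := Nat.mul_pos hj1 (by omega)
  set w := s1 + s2 with hw
  set a := (zK F 1)⁻¹ with ha
  have ha0 : a ≠ 0 := inv_ne_zero (zK_ne_zero 0)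
  have hnuK : algebraMap F[X] (RatFunc F) nu ≠ 0 := by
    rwa [Ne, map_eq_zero_iff _ (RatFunc.algebraMap_injective F)]
  have hdeK : algebraMap F[X] (RatFunc F) de ≠ 0 := by
    rwa [Ne, map_eq_zero_iff _ (RatFunc.algebraMap_injective F)]
  set H := (Glt F w s2).comp (X - 1) with hH
  obtain ⟨hb1, hb2⟩ := Glt_natDegree (F := F) w s2 hs2pos
  set b' := (Glt F w s2).natDegree with hb'
  have hX1 : (X - 1 : F[X]).natDegree = 1 := by
    rw [← C_1]; exact natDegree_X_sub_C 1
  have hHdeg : H.natDegree = b' := by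
    rw [hH, natDegree_comp, hX1, mul_one]
  have hH0 : H ≠ 0 := by
    intro h0
    rw [hH, comp_eq_zero_iff] at h0
    rcases h0 with h0 | ⟨_, h0⟩
    · exact Glt_ne_zero w s2 hs2pos h0
    · have := congrArg natDegree h0
      rw [hX1, natDegree_C] at this
      omega
  -- coefficients in degrees not divisible by `q`
  have hcoef : ∀ k, ¬ (Fintype.card F ∣ w + k) → H.coeff k = 0 := by
    intro k hk
    have h3 := congrArg (fun f => coeff f (w + k)) hid
    simp only [coeff_C_mul, coeff_add, coeff_expand q_pos, if_neg hk, mul_zero, zero_add] at h3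
    rw [mul_eq_zero] at h3
    rcases h3 with h3 | h3
    · exact absurd h3 hnuK
    · rw [show w + k = k + w by ring, coeff_X_pow_mul, comp_C_mul_X_coeff, coeff_map,
        mul_eq_zero] at h3
      rcases h3 with h3 | h3
      · exact (map_eq_zero_iff _ (RatFunc.C (K := F)).injective).1 h3
      · exact absurd h3 (pow_ne_zero _ ha0)
  have hdvd : Fintype.card F ∣ w + b' := by
    by_contra hc
    have := hcoef b' hc
    rw [← hHdeg] at this
    exact (leadingCoeff_ne_zero.2 hH0) this
  -- `H` is a monomial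
  have hHmon : H = X ^ b' := by
    have h4 : ∀ k, k ≠ b' → H.coeff k = 0 := by
      intro k hk
      rcases lt_or_gt_of_ne hk with hk | hk
      · apply hcoef
        intro hdv
        have h5 : Fintype.card F ∣ (w + b') - (w + k) := Nat.dvd_sub hdvd hdv
        have h6 := Nat.le_of_dvd (by omega) h5
        omega
      · exact coeff_eq_zero_of_natDegree_lt (by omega)
    have h5 : H = C (H.coeff b') * X ^ b' := by
      ext k
      rw [coeff_C_mul_X_pow]
      split_ifs with hk
      · rw [hk]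
      · exact h4 k hk
    have h6 : Glt F w s2 = H.comp (X + 1) := by
      rw [hH, comp_assoc]; simp
    have h7 : (Glt F w s2).coeff 0 = H.coeff b' := by
      rw [h6, h5, coeff_zero_eq_eval_zero, eval_comp]
      simp
    rw [Glt_coeff_zero w s2 hs2pos] at h7
    rw [h5, ← h7]; simp
  -- `b' = q - 1 - b0`
  have hb0 : b' = Fintype.card F - 1 - (w - 1) % Fintype.card F := by
    have h8 := Nat.mod_add_div (w - 1) (Fintype.card F)
    have h9 := Nat.mod_lt (w - 1) (show Fintype.card F > 0 by omega)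
    have h10 : Fintype.card F ∣ 1 + (w - 1) % Fintype.card F + b' := by
      have h11 : w + b' = (1 + (w - 1) % Fintype.card F + b') +
        Fintype.card F * ((w - 1) / Fintype.card F) := by omega
      rw [h11] at hdvd
      exact (Nat.dvd_add_left (dvd_mul_right _ _)).1 hdvd
    have h12 := Nat.le_of_dvd (by omega) h10
    omega
  have hGge : GG F w - Glt F w s2 = 0 := by
    ext b
    rw [coeff_sub, coeff_Glt, coeff_zero]
    split_ifs with hc
    · ring
    · rw [sub_zero, coeff_GG, Nat.choose_eq_zero_of_lt, Nat.cast_zero, ite_self]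
      rw [← hb0]
      by_contra hcc
      push Not at hcc
      have := Nat.mul_le_mul_left (Fintype.card F) hcc
      omega
  rw [hGge, hHmon] at hid
  have h13 := congrArg (fun f => coeff f (Fintype.card F * j)) hid
  simp only [Polynomial.map_zero, zero_comp, map_zero, zero_add, Polynomial.map_pow, map_X,
    X_pow_comp, mul_pow, ← C_pow] at h13
  rw [coeff_C_mul, coeff_C_mul, coeff_expand q_pos, if_pos (dvd_mul_right _ _),
    Nat.mul_div_cancel_left _ q_pos, comp_C_mul_X_coeff, coeff_map] at h13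
  have h14 : (X ^ j * GG F s1).coeff j = 1 := by
    have := coeff_X_pow_mul (GG F s1) j 0
    rw [zero_add] at this
    rw [this, coeff_GG_zero]
  rw [h14, map_one, one_mul] at h13
  have h15 : (X ^ w * (C (a ^ b') * X ^ b')).coeff (Fintype.card F * j) ≠ 0 := by
    intro h0
    rw [h0, mul_zero] at h13
    exact (mul_ne_zero hdeK (pow_ne_zero _ ha0)) h13.symm
  have h16 : (X ^ w * (C (a ^ b') * X ^ b') : (RatFunc F)[X]) = C (a ^ b') * X ^ (w + b') := by
    rw [pow_add]; ring
  rw [h16, coeff_C_mul_X_pow] at h15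
  have h17 : Fintype.card F * j = w + b' := by
    by_contra hc
    rw [if_neg hc] at h15
    exact h15 rfl
  have h18 : Fintype.card F * j = j * (Fintype.card F - 1) + j := by
    obtain ⟨r, hr⟩ : ∃ r, Fintype.card F = r + 1 := ⟨Fintype.card F - 1, by omega⟩
    rw [hr, Nat.add_sub_cancel]; ring
  omega

lemma regime1 (s1 s2 : ℕ) (h1 : 1 ≤ s1) (h2 : 1 ≤ s2) (hw : s1 + s2 ≤ Fintype.card F ^ 2)
    (nu de : F[X]) (hnu : nu ≠ 0) (hde : de ≠ 0)
    (D : ℕ)
    (hN : ∀ d, D ≤ d → Na s1 s2 nu de d ≠ 0 ∧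
      ((Na s1 s2 nu de d).natDegree : ℤ) = de.natDegree +
        (((s1 + s2 : ℕ) : ℤ) - Fintype.card F * hh F s1) * (LL (Fintype.card F) d : ℤ) -
        Fintype.card F * hh F s1)
    (hR : (Fintype.card F : ℤ) * (((s1 + s2 : ℕ) : ℤ) - Fintype.card F * hh F s1) <
      ((Fintype.card F : ℤ) - 1) * s2) :
    ∃ j, s2 = j * (Fintype.card F - 1) ∧ s1 ≤ Fintype.card F ∧ s1 ≤ j := by
  have hq := two_le_q (F := F)
  obtain ⟨D', hD'⟩ := regime1_eq s1 s2 h2 nu de _ (hh F s1) D rfl (hh_pos s1 h1) hN hR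
  -- compare degrees
  have hdeg : ∀ d, D' ≤ d → ((de.natDegree : ℤ) +
        (((s1 + s2 : ℕ) : ℤ) - Fintype.card F * hh F s1) * (LL (Fintype.card F) (d + 1) : ℤ) -
        Fintype.card F * hh F s1) = nu.natDegree + (Glt F (s1 + s2) s2).natDegree *
          (((Fintype.card F : ℤ) - 1) * (LL (Fintype.card F) (d + 1) : ℤ)) := by
    intro d hd
    obtain ⟨hDd, heq⟩ := hD' d hd
    obtain ⟨hne, hdeg⟩ := hN (d + 1) (by omega)
    obtain ⟨c1, c2⟩ := comp_xd_ne_zero (Glt F (s1 + s2) s2) (Glt_coeff_zero _ _ h2) (d + 1)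
    rw [← hdeg, heq, natDegree_neg, natDegree_mul hnu c1, c2]
    push_cast [Nat.cast_sub (show 1 ≤ Fintype.card F by omega)]
    ring
  have e1 := hdeg D' le_rfl
  have e2 := hdeg (D' + 1) (by omega)
  have hlt : (LL (Fintype.card F) (D' + 1) : ℤ) < (LL (Fintype.card F) (D' + 1 + 1) : ℤ) := by
    exact_mod_cast LL_strictMono (F := F) (D' + 1)
  have hA : (((s1 + s2 : ℕ) : ℤ) - Fintype.card F * hh F s1) =
      (Glt F (s1 + s2) s2).natDegree * ((Fintype.card F : ℤ) - 1) := by
    have e3 : ((((s1 + s2 : ℕ) : ℤ) - Fintype.card F * hh F s1) -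
      (Glt F (s1 + s2) s2).natDegree * ((Fintype.card F : ℤ) - 1)) *
      ((LL (Fintype.card F) (D' + 1 + 1) : ℤ) - (LL (Fintype.card F) (D' + 1) : ℤ)) = 0 := by
      linear_combination e2 - e1
    rw [mul_eq_zero] at e3
    rcases e3 with e3 | e3
    · linarith
    · linarith
  -- `(q - 1) ∣ s₂`
  have hs2 : (s2 : ℤ) = ((Glt F (s1 + s2) s2).natDegree + hh F s1 - (GG F s1).natDegree) *
      ((Fintype.card F : ℤ) - 1) := by
    unfold hh at hA ⊢
    push_cast at hA
    linear_combination hA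
  set jz : ℤ := ((Glt F (s1 + s2) s2).natDegree + hh F s1 - (GG F s1).natDegree) with hjz
  have hq' : (2 : ℤ) ≤ (Fintype.card F : ℤ) := by exact_mod_cast hq
  have hjpos : 1 ≤ jz := by
    by_contra hc
    push Not at hc
    have : jz * ((Fintype.card F : ℤ) - 1) ≤ 0 :=
      mul_nonpos_of_nonpos_of_nonneg (by linarith) (by linarith)
    have h3 : (1 : ℤ) ≤ (s2 : ℤ) := by exact_mod_cast h2
    linarith
  obtain ⟨j, hj⟩ : ∃ j : ℕ, (j : ℤ) = jz := ⟨jz.toNat, Int.toNat_of_nonneg (by linarith)⟩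
  have hs2n : s2 = j * (Fintype.card F - 1) := by
    have : (s2 : ℤ) = ((j * (Fintype.card F - 1) : ℕ) : ℤ) := by
      push_cast [Nat.cast_sub (show 1 ≤ Fintype.card F by omega)]
      rw [hj]; exact hs2
    exact_mod_cast this
  have hj1 : 1 ≤ j := by
    have : (1 : ℤ) ≤ (j : ℤ) := by rw [hj]; exact hjpos
    exact_mod_cast this
  refine ⟨j, hs2n, ?_⟩
  rcases Nat.lt_or_ge (Fintype.card F) j with hjq | hjq
  · obtain ⟨r, hr⟩ : ∃ r, Fintype.card F = r + 1 := ⟨Fintype.card F - 1, by omega⟩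
    rw [hr] at hw hs2n hjq
    rw [hs2n] at hw
    simp only [Nat.add_sub_cancel] at hw
    have : (r + 2) * r ≤ j * r := Nat.mul_le_mul_right _ (by omega)
    have h3 : (r + 1) ^ 2 = (r + 2) * r + 1 := by ring
    omega
  · subst hs2n
    have := regime1_final s1 j nu de hnu hde h1 hj1 hjq D' (fun d hd => (hD' d hd).2)
    exact ⟨by omega, this⟩

end Pool.Agent.ZL
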