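import Pool.Agent.ZL8c.A7

open Polynomial

namespace Pool.Agent.ZL

variable {F : Type*} [Field F] [Fintype F]

lemma natDegree_one_add_xd' (d : ℕ) :
    (1 + xd F d).natDegree = (Fintype.card F - 1) * LL (Fintype.card F) d := by
  have h1 := natDegree_one_add_xd (F := F) d
  have h2 := LL_mul (Fintype.card F) d q_pos
  omega

lemma one_add_xd_ne_zero (d : ℕ) : 1 + xd F d ≠ 0 := by
  intro h0
  have := zz_succ_eq (F := F) d
  rw [h0, mul_zero] at this
  exact zz_ne_zero d this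

lemma arith1 (Q Λ j R δ dd : ℤ) (z1 : R * Λ + (R + 1) = (R + 1) * Q) (zj1 : 1 ≤ j)
    (zj2 : j + 1 ≤ R) (zQ1 : dd + 2 ≤ Q) (zLam : dd + 1 ≤ Λ) (zd : δ ≤ dd) (zd0 : 0 ≤ dd) :
    δ - (R + 1) ^ 2 + j * Λ < (R * (R + 1) + j) * Q := by
  have t1 : 0 ≤ (R - j) * Λ := mul_nonneg (by linarith) (by linarith)
  have t2 : 0 ≤ (R * R - 1) * Q := mul_nonneg (by nlinarith) (by linarith)
  have t3 : 0 ≤ (j - 1) * Q := mul_nonneg (by linarith) (by linarith)
  have t4 : 0 ≤ (R + 1) ^ 2 := sq_nonneg _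
  have t5 : 0 ≤ R := by linarith
  linarith

lemma arith2 (Q j R ρ dd : ℤ) (zj1 : 1 ≤ j)
    (zj2 : j + 1 ≤ R) (zQ1 : dd + 2 ≤ Q) (zd : ρ ≤ dd) (zd0 : 0 ≤ dd) :
    ρ + (R + 1 - j) * ((R + 1) * Q - (R + 1)) < (R * (R + 1) + j) * Q := by
  have hQ0 : 0 ≤ (R + 1) * (Q - 1) := mul_nonneg (by linarith) (by linarith)
  have t1 : 0 ≤ (j - 1) * ((R + 1) * (Q - 1)) := mul_nonneg (by linarith) hQ0
  have t3 : 0 ≤ (j - 1) * Q := mul_nonneg (by linarith) (by linarith)
  have t5 : 0 ≤ R * (R + 1) := mul_nonneg (by linarith) (by linarith)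
  linarith

lemma arith3 (Λ j R ρ δ dd : ℤ) (zj1 : 1 ≤ j)
    (zj2 : j + 1 ≤ R) (zLam : dd + 1 ≤ Λ) (zd : δ ≤ dd) (zd0 : 0 ≤ dd) (zr : 0 ≤ ρ)
    (h : ρ + (R + 1 - j) * (R * Λ) = δ - (R + 1) ^ 2 + j * Λ) : False := by
  have t1 : 0 ≤ ((R + 1) * (R - j) - 1) * Λ := by
    apply mul_nonneg _ (by linarith)
    nlinarith
  have t4 : 0 ≤ (R + 1) ^ 2 := sq_nonneg _
  linarith

lemma arith4 (Λ j R δ ν : ℤ) (hj : 1 ≤ j) (hR : 0 ≤ R) (hb : ν + (R + 1) < Λ) (hb3 : 0 ≤ δ)
    (hL : 0 ≤ Λ) :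
    ν + (R - j) * (R * Λ) < δ + (1 + (R * (R + 1) + j) - (R + 1)) * Λ - (R + 1) := by
  have hb2 : 0 ≤ (j * (R + 1) - 1) * Λ := by
    apply mul_nonneg _ hL
    nlinarith
  linarith

lemma regime2_contra (j' : ℕ) (hj1 : 1 ≤ j') (hj2 : j' + 1 < Fintype.card F) (s2 : ℕ)
    (hs2 : s2 = (Fintype.card F - 1) * Fintype.card F + j') (nu de : F[X]) (hnu : nu ≠ 0)
    (D : ℕ)
    (hN : ∀ d, D ≤ d → Na 1 s2 nu de d ≠ 0 ∧
      ((Na 1 s2 nu de d).natDegree : ℤ) = de.natDegree +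
        (((1 + s2 : ℕ) : ℤ) - Fintype.card F) * (LL (Fintype.card F) d : ℤ) -
        Fintype.card F) : False := by
  have hq := two_le_q (F := F)
  have d1 : (s2 - 1) / Fintype.card F = Fintype.card F - 1 := by
    rw [show s2 - 1 = (j' - 1) + (Fintype.card F - 1) * Fintype.card F by omega,
      Nat.add_mul_div_right _ _ (by omega), Nat.div_eq_of_lt (by omega), zero_add]
  have d2 : (s2 - 1) % Fintype.card F = j' - 1 := by
    rw [show s2 - 1 = (j' - 1) + (Fintype.card F - 1) * Fintype.card F by omega,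
      Nat.add_mul_mod_self_right, Nat.mod_eq_of_lt (by omega)]
  have d3 : (1 + s2 - 1) / Fintype.card F = Fintype.card F - 1 := by
    rw [show 1 + s2 - 1 = j' + (Fintype.card F - 1) * Fintype.card F by omega,
      Nat.add_mul_div_right _ _ (by omega), Nat.div_eq_of_lt (by omega), zero_add]
  have d4 : (1 + s2 - 1) % Fintype.card F = j' := by
    rw [show 1 + s2 - 1 = j' + (Fintype.card F - 1) * Fintype.card F by omega,
      Nat.add_mul_mod_self_right, Nat.mod_eq_of_lt (by omega)]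
  have g2 : GG F s2 = (1 + X) ^ (Fintype.card F - j') := by
    rw [GG_full s2 (by rw [d1, d2]; omega), d2]
    congr 1; omega
  have gw : GG F (1 + s2) = (1 + X) ^ (Fintype.card F - 1 - j') := by
    rw [GG_full (1 + s2) (by rw [d3, d4]; omega), d4]
  set Wa : ℕ → F[X] := fun d => zz F (d + 1) * Na 1 s2 nu de d + de * Pa F s2 d with hWa
  set ρ : F[X] := de - nu * zz F 1 with hρ
  have hNa : ∀ d, Na 1 s2 nu de (d + 1) = zz F (d + 1) ^ s2 * Wa d -
      nu * (1 + xd F (d + 1)) ^ (Fintype.card F - 1 - j') := by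
    intro d
    rw [Na, gw, GG_one, hWa]
    simp only [pow_comp, add_comp, one_comp, X_comp]
    ring
  have hPa : ∀ d, Pa F s2 (d + 1) = zz F (d + 1) ^ s2 * Pa F s2 d +
      (1 + xd F (d + 1)) ^ (Fintype.card F - j') := by
    intro d
    rw [Pa, g2]
    simp only [pow_comp, add_comp, one_comp, X_comp]
  have hW : ∀ d, Wa (d + 1) - ρ * (1 + xd F (d + 1)) ^ (Fintype.card F - j') =
      zz F (d + 1) ^ s2 * (zz F (d + 1 + 1) * Wa d + de * Pa F s2 d) := by
    intro d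
    have e1 : Wa (d + 1) = zz F (d + 1 + 1) * Na 1 s2 nu de (d + 1) + de * Pa F s2 (d + 1) := rfl
    have e2 : (1 + xd F (d + 1)) ^ (Fintype.card F - j') =
        (1 + xd F (d + 1)) * (1 + xd F (d + 1)) ^ (Fintype.card F - 1 - j') := by
      rw [← pow_succ']; congr 1; omega
    rw [e1, hNa, hPa, hρ]
    have e3 := zz_succ_eq (F := F) (d + 1)
    rw [e2]
    linear_combination (-nu * (1 + xd F (d + 1)) ^ (Fintype.card F - 1 - j')) * e3
  -- choose `d` large
  set d : ℕ := D + nu.natDegree + Fintype.card F + de.natDegree + ρ.natDegree with hd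
  obtain ⟨hne, hdeg⟩ := hN (d + 1 + 1) (by omega)
  have hLL1 := LL_mul (Fintype.card F) (d + 1) q_pos
  have hLL2 := LL_mul (Fintype.card F) (d + 1 + 1) q_pos
  have hle1 := le_LL (F := F) (d + 1)
  have hle2 := le_LL (F := F) (d + 1 + 1)
  have hQ1 : d + 1 < Fintype.card F ^ (d + 1) := Nat.lt_pow_self hq
  have hsucc := LL_succ (Fintype.card F) (d + 1)
  obtain ⟨r, hr⟩ : ∃ r, Fintype.card F = r + 1 := ⟨Fintype.card F - 1, by omega⟩
  -- integer versions
  have z1 : (r : ℤ) * (LL (Fintype.card F) (d + 1) : ℤ) + (r + 1) =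
      (r + 1) * (Fintype.card F ^ (d + 1) : ℕ) := by
    have : (((Fintype.card F - 1) * LL (Fintype.card F) (d + 1) + Fintype.card F : ℕ) : ℤ) =
      ((Fintype.card F ^ (d + 1) * Fintype.card F : ℕ) : ℤ) := by
        rw [← pow_succ]; exact_mod_cast hLL1
    rw [show Fintype.card F - 1 = r by omega] at this
    push_cast at this ⊢
    rw [show (Fintype.card F : ℤ) = (r : ℤ) + 1 by exact_mod_cast hr] at this ⊢
    linarith
  have z2 : (LL (Fintype.card F) (d + 1 + 1) : ℤ) = (LL (Fintype.card F) (d + 1) : ℤ) +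
      (r + 1) * (Fintype.card F ^ (d + 1) : ℕ) := by
    have : ((LL (Fintype.card F) (d + 1 + 1) : ℕ) : ℤ) =
      ((LL (Fintype.card F) (d + 1) + Fintype.card F ^ (d + 1) * Fintype.card F : ℕ) : ℤ) := by
        rw [← pow_succ]; exact_mod_cast hsucc
    push_cast at this ⊢
    rw [show (Fintype.card F : ℤ) = (r : ℤ) + 1 by exact_mod_cast hr] at this ⊢
    linarith
  have zs2 : (s2 : ℤ) = r * (r + 1) + j' := by
    rw [hs2, hr, Nat.add_sub_cancel]; push_cast; ring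
  have zq : (Fintype.card F : ℤ) = (r : ℤ) + 1 := by exact_mod_cast hr
  have zpow2 : ((Fintype.card F ^ (d + 1 + 1) : ℕ) : ℤ) =
      (r + 1) * (Fintype.card F ^ (d + 1) : ℕ) := by
    rw [pow_succ _ (d + 1)]; push_cast; rw [zq]; ring
  -- degree of the perturbation
  have hlt : (nu * (1 + xd F (d + 1 + 1)) ^ (Fintype.card F - 1 - j')).natDegree <
      (Na 1 s2 nu de (d + 1 + 1)).natDegree := by
    rw [natDegree_mul hnu (pow_ne_zero _ (one_add_xd_ne_zero _)), natDegree_pow,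
      natDegree_one_add_xd']
    have : ((nu.natDegree + (Fintype.card F - 1 - j') *
        ((Fintype.card F - 1) * LL (Fintype.card F) (d + 1 + 1)) : ℕ) : ℤ) <
        ((Na 1 s2 nu de (d + 1 + 1)).natDegree : ℤ) := by
      rw [hdeg]
      rw [show Fintype.card F - 1 - j' = r - j' by omega, show Fintype.card F - 1 = r by omega]
      push_cast [Nat.cast_sub (show j' ≤ r by omega)]
      rw [zs2, zq]
      have hb : (nu.natDegree : ℤ) + (r + 1) < (LL (Fintype.card F) (d + 1 + 1) : ℤ) := by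
        have : nu.natDegree + (r + 1) < LL (Fintype.card F) (d + 1 + 1) := by omega
        exact_mod_cast this
      exact arith4 _ _ _ _ _ (by exact_mod_cast hj1) (Nat.cast_nonneg _) hb (Nat.cast_nonneg _)
        (Nat.cast_nonneg _)
    exact_mod_cast this
  have hprod : zz F (d + 1 + 1) ^ s2 * Wa (d + 1) = Na 1 s2 nu de (d + 1 + 1) +
      nu * (1 + xd F (d + 1 + 1)) ^ (Fintype.card F - 1 - j') := by
    rw [hNa (d + 1)]; ring
  have hpd : (zz F (d + 1 + 1) ^ s2 * Wa (d + 1)).natDegree =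
      (Na 1 s2 nu de (d + 1 + 1)).natDegree := by
    rw [hprod]; exact natDegree_add_eq_left_of_natDegree_lt hlt
  have hWne : Wa (d + 1) ≠ 0 := by
    intro h0
    rw [h0, mul_zero, natDegree_zero] at hpd
    omega
  rw [natDegree_mul (pow_ne_zero _ (zz_ne_zero _)) hWne, natDegree_pow, natDegree_zz] at hpd
  have hWdeg : ((Wa (d + 1)).natDegree : ℤ) = de.natDegree - (r + 1) ^ 2 +
      j' * (LL (Fintype.card F) (d + 1) : ℤ) := by
    have h3 : ((s2 * Fintype.card F ^ (d + 1 + 1) + (Wa (d + 1)).natDegree : ℕ) : ℤ) =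
      ((Na 1 s2 nu de (d + 1 + 1)).natDegree : ℤ) := by exact_mod_cast hpd
    rw [hdeg] at h3
    rw [Nat.cast_add, Nat.cast_mul, zpow2, Nat.cast_add, zs2, zq, z2] at h3
    push_cast at h3 z1
    linear_combination h3 + r * z1
  -- the divisibility forces equality
  have zj1 : (1 : ℤ) ≤ (j' : ℤ) := by exact_mod_cast hj1
  have zj2 : (j' : ℤ) + 1 ≤ (r : ℤ) := by exact_mod_cast (show j' + 1 ≤ r by omega)
  have zQ1 : (d : ℤ) + 2 ≤ ((Fintype.card F ^ (d + 1) : ℕ) : ℤ) := by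
    exact_mod_cast (show d + 2 ≤ Fintype.card F ^ (d + 1) by omega)
  have zLam : (d : ℤ) + 1 ≤ (LL (Fintype.card F) (d + 1) : ℤ) := by exact_mod_cast hle1
  have zδ : (de.natDegree : ℤ) ≤ (d : ℤ) := by exact_mod_cast (show de.natDegree ≤ d by omega)
  have zρ : (ρ.natDegree : ℤ) ≤ (d : ℤ) := by exact_mod_cast (show ρ.natDegree ≤ d by omega)
  have zδ0 : (0 : ℤ) ≤ (de.natDegree : ℤ) := Nat.cast_nonneg _
  have zρ0 : (0 : ℤ) ≤ (ρ.natDegree : ℤ) := Nat.cast_nonneg _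
  have zd0 : (0 : ℤ) ≤ (d : ℤ) := Nat.cast_nonneg _
  clear_value d
  have hzero : Wa (d + 1) - ρ * (1 + xd F (d + 1)) ^ (Fintype.card F - j') = 0 := by
    apply eq_zero_of_dvd_of_lt (a := zz F (d + 1) ^ s2) (by rw [hW]; exact dvd_mul_right _ _)
    rw [natDegree_pow, natDegree_zz]
    refine lt_of_le_of_lt (natDegree_sub_le _ _) (max_lt ?_ ?_)
    · have : ((Wa (d + 1)).natDegree : ℤ) < ((s2 * Fintype.card F ^ (d + 1) : ℕ) : ℤ) := by
        rw [hWdeg, Nat.cast_mul, zs2]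
        exact arith1 _ _ _ _ _ _ z1 zj1 zj2 zQ1 zLam zδ zd0
      exact_mod_cast this
    · refine lt_of_le_of_lt (natDegree_mul_le.trans (Nat.add_le_add_left natDegree_pow_le _)) ?_
      rw [natDegree_one_add_xd']
      have : ((ρ.natDegree + (Fintype.card F - j') *
          ((Fintype.card F - 1) * LL (Fintype.card F) (d + 1)) : ℕ) : ℤ) <
          ((s2 * Fintype.card F ^ (d + 1) : ℕ) : ℤ) := by
        rw [show Fintype.card F - j' = r + 1 - j' by omega, show Fintype.card F - 1 = r by omega]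
        rw [Nat.cast_mul, zs2, Nat.cast_add, Nat.cast_mul, Nat.cast_mul,
          Nat.cast_sub (show j' ≤ r + 1 by omega), Nat.cast_add, Nat.cast_one]
        have z1' : (r : ℤ) * (LL (Fintype.card F) (d + 1) : ℤ) =
          (r + 1) * (Fintype.card F ^ (d + 1) : ℕ) - (r + 1) := by linarith
        rw [z1']
        exact arith2 _ _ _ _ _ zj1 zj2 zQ1 zρ zd0
      exact_mod_cast this
  have hWeq : Wa (d + 1) = ρ * (1 + xd F (d + 1)) ^ (Fintype.card F - j') := sub_eq_zero.1 hzero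
  have hρ0 : ρ ≠ 0 := by
    intro h0
    rw [h0, zero_mul] at hWeq
    exact hWne hWeq
  rw [hWeq, natDegree_mul hρ0 (pow_ne_zero _ (one_add_xd_ne_zero _)), natDegree_pow,
    natDegree_one_add_xd', show Fintype.card F - j' = r + 1 - j' by omega,
    show Fintype.card F - 1 = r by omega, Nat.cast_add, Nat.cast_mul, Nat.cast_mul,
    Nat.cast_sub (show j' ≤ r + 1 by omega), Nat.cast_add, Nat.cast_one] at hWdeg
  exact arith3 _ _ _ _ _ _ zj1 zj2 zLam zδ zd0 zρ0 hWdeg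

lemma regime2 (s1 s2 : ℕ) (h1 : 1 ≤ s1) (h2 : 1 ≤ s2) (hw : s1 + s2 ≤ Fintype.card F ^ 2)
    (nu de : F[X]) (hnu : nu ≠ 0)
    (D : ℕ)
    (hN : ∀ d, D ≤ d → Na s1 s2 nu de d ≠ 0 ∧
      ((Na s1 s2 nu de d).natDegree : ℤ) = de.natDegree +
        (((s1 + s2 : ℕ) : ℤ) - Fintype.card F * hh F s1) * (LL (Fintype.card F) d : ℤ) -
        Fintype.card F * hh F s1)
    (hR : ((Fintype.card F : ℤ) - 1) * s2 ≤
      (Fintype.card F : ℤ) * (((s1 + s2 : ℕ) : ℤ) - Fintype.card F * hh F s1)) :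
    ∃ j, s2 = j * (Fintype.card F - 1) ∧ s1 ≤ Fintype.card F ∧ s1 ≤ j := by
  have hq := two_le_q (F := F)
  have hb := hh_bound (F := F) s1 h1
  obtain ⟨r, hr⟩ : ∃ r, Fintype.card F = r + 1 := ⟨Fintype.card F - 1, by omega⟩
  have zq : (Fintype.card F : ℤ) = (r : ℤ) + 1 := by exact_mod_cast hr
  have hr1 : (1 : ℤ) ≤ (r : ℤ) := by exact_mod_cast (show 1 ≤ r by omega)
  have hwz : (s1 : ℤ) + s2 ≤ (r + 1) ^ 2 := by
    have : s1 + s2 ≤ (r + 1) ^ 2 := by rw [← hr]; exact hw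
    exact_mod_cast this
  have zs1 : (1 : ℤ) ≤ (s1 : ℤ) := by exact_mod_cast h1
  -- `q (q - 1) ≤ s₂`
  have hge : (r : ℤ) * (r + 1) ≤ s2 := by
    rw [zq] at hb hR
    push_cast at hR
    have t1 : ((r : ℤ) + 1) * ((s1 : ℤ) + (r + 1) - 1) ≤
        (r + 1) * ((r + 1) * hh F s1) := mul_le_mul_of_nonneg_left hb (by linarith)
    linarith
  have hs1q : s1 ≤ r + 1 := by
    have : (s1 : ℤ) ≤ r + 1 := by nlinarith
    exact_mod_cast this
  have hdeg0 : (GG F s1).natDegree = 0 := by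
    have h3 := natDegree_GG_le (F := F) s1
    rw [Nat.div_eq_of_lt (by omega)] at h3
    omega
  have hhs : hh F s1 = s1 := by unfold hh; rw [hdeg0]; simp
  have hs1 : s1 = 1 := by
    by_contra hc
    have hc2 : (2 : ℤ) ≤ (s1 : ℤ) := by exact_mod_cast (show 2 ≤ s1 by omega)
    rw [hhs, zq] at hR
    push_cast at hR
    have t1 : 0 ≤ ((s1 : ℤ) - 2) * (r * (r + 1) + 1) := mul_nonneg (by linarith) (by nlinarith)
    nlinarith
  subst hs1
  obtain ⟨j', hj'⟩ : ∃ j', s2 = r * (r + 1) + j' := by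
    have : r * (r + 1) ≤ s2 := by exact_mod_cast hge
    exact ⟨s2 - r * (r + 1), by omega⟩
  have hj'r : j' ≤ r := by
    rw [hr] at hw
    have : (r + 1) ^ 2 = r * (r + 1) + r + 1 := by ring
    omega
  rcases Nat.eq_zero_or_pos j' with h0 | hpos
  · refine ⟨r + 1, ?_, by omega, by omega⟩
    rw [hj', h0, hr, Nat.add_sub_cancel]; ring
  · rcases Nat.lt_or_ge j' r with hlt | hge'
    · exfalso
      refine regime2_contra j' hpos (by omega) s2 (by
        rw [hj', hr, Nat.add_sub_cancel]) nu de hnu D ?_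
      intro d hd
      obtain ⟨c1, c2⟩ := hN d hd
      refine ⟨c1, ?_⟩
      rw [c2, hhs]
      push_cast; ring
    · have : j' = r := by omega
      refine ⟨r + 2, ?_, by omega, by omega⟩
      rw [hj', this, hr, Nat.add_sub_cancel]; ring

/-- Core theorem: if the truncated differences tend to zero then `(s₁,s₂)` is in the list. -/
theorem core [DecidableEq (RatFunc F)] (s1 s2 : ℕ) (h1 : 1 ≤ s1) (h2 : 1 ≤ s2)
    (hw : s1 + s2 ≤ Fintype.card F ^ 2) (c : RatFunc F) (hlim : Tends (TT s1 s2 c)) :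
    ∃ j, s2 = j * (Fintype.card F - 1) ∧ s1 ≤ Fintype.card F ∧ s1 ≤ j := by
  have hde : c.denom ≠ 0 := RatFunc.denom_ne_zero c
  have hc : c * algebraMap F[X] (RatFunc F) c.denom = algebraMap F[X] (RatFunc F) c.num := by
    have hd0 : algebraMap F[X] (RatFunc F) c.denom ≠ 0 := by
      rwa [Ne, map_eq_zero_iff _ (RatFunc.algebraMap_injective F)]
    have h3 := RatFunc.num_div_denom c
    rw [div_eq_iff hd0] at h3
    exact h3.symm
  obtain ⟨hnu, D, hN⟩ := analytic_deg s1 s2 h1 h2 hw c c.num c.denom hde hc hlim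
  rcases lt_or_ge ((Fintype.card F : ℤ) * (((s1 + s2 : ℕ) : ℤ) - Fintype.card F * hh F s1))
    (((Fintype.card F : ℤ) - 1) * s2) with hR | hR
  · exact regime1 s1 s2 h1 h2 hw c.num c.denom hnu hde D hN hR
  · exact regime2 s1 s2 h1 h2 hw c.num c.denom hnu D hN hR

end Pool.Agent.ZL
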